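import Mathlib

-- merged part: Pool.Agent.Work.MP_096b72_nt.Harm
section
set_option autoImplicit false

namespace Pool.Agent.Work.MP_096b72_nt

open Finset

section
variable (K : Type*) [Field K]

def HH (n : ℕ) : K := ∑ i ∈ range n, ((i : K) + 1)⁻¹
def OO (n : ℕ) : K := ∑ i ∈ range n, (2 * (i : K) + 1)⁻¹
def H2 (n : ℕ) : K := ∑ i ∈ range n, (((i : K) + 1)⁻¹) ^ 2
def O2 (n : ℕ) : K := ∑ i ∈ range n, ((2 * (i : K) + 1)⁻¹) ^ 2
end

variable {K : Type*} [Field K]

lemma sum_even_odd {M : Type*} [AddCommMonoid M] (f : ℕ → M) (m : ℕ) :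
    ∑ j ∈ range (2 * m), f j = ∑ k ∈ range m, (f (2 * k) + f (2 * k + 1)) := by
  induction m with
  | zero => simp
  | succ m ih =>
    rw [show 2 * (m + 1) = 2 * m + 1 + 1 by ring, sum_range_succ, sum_range_succ, ih,
      sum_range_succ, add_assoc]

lemma prod_even_odd {M : Type*} [CommMonoid M] (f : ℕ → M) (m : ℕ) :
    ∏ j ∈ range (2 * m), f j = ∏ k ∈ range m, (f (2 * k) * f (2 * k + 1)) := by
  induction m with
  | zero => simp
  | succ m ih =>
    rw [show 2 * (m + 1) = 2 * m + 1 + 1 by ring, prod_range_succ, prod_range_succ, ih,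
      prod_range_succ, mul_assoc]

lemma sq_sum_eq {R : Type*} [CommRing R] (a : ℕ → R) (n : ℕ) :
    (∑ i ∈ range n, a i) ^ 2 =
      2 * ∑ i ∈ range n, (∑ j ∈ range i, a j) * a i + ∑ i ∈ range n, a i ^ 2 := by
  induction n with
  | zero => simp
  | succ n ih =>
    simp only [sum_range_succ]
    linear_combination ih

lemma HH_succ (n : ℕ) : HH K (n + 1) = HH K n + ((n : K) + 1)⁻¹ := by
  unfold HH; rw [sum_range_succ]

lemma OO_succ (n : ℕ) : OO K (n + 1) = OO K n + (2 * (n : K) + 1)⁻¹ := by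
  unfold OO; rw [sum_range_succ]

lemma HH_zero : HH K 0 = 0 := by simp [HH]
lemma OO_zero : OO K 0 = 0 := by simp [OO]

lemma inv_two_mul (h2 : (2 : K) ≠ 0) (x : K) : (2 * x + 2)⁻¹ = (x + 1)⁻¹ / 2 := by
  rw [show 2 * x + 2 = 2 * (x + 1) by ring, mul_inv]; field_simp

lemma HH_even (h2 : (2 : K) ≠ 0) (l : ℕ) : HH K (2 * l) = OO K l + HH K l / 2 := by
  unfold HH OO
  rw [sum_even_odd, sum_div, ← sum_add_distrib]
  apply sum_congr rfl; intro k _
  push_cast
  rw [← inv_two_mul h2]; congr 2; ring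

lemma HH_odd (h2 : (2 : K) ≠ 0) (l : ℕ) : HH K (2 * l + 1) = OO K (l + 1) + HH K l / 2 := by
  rw [HH_succ, HH_even h2, OO_succ]; push_cast; ring

lemma H2_even (h2 : (2 : K) ≠ 0) (l : ℕ) : H2 K (2 * l) = O2 K l + H2 K l / 4 := by
  unfold H2 O2
  rw [sum_even_odd, sum_div, ← sum_add_distrib]
  apply sum_congr rfl; intro k _
  push_cast
  rw [show (2 * (k : K) + 1 + 1) = 2 * k + 2 by ring, inv_two_mul h2, div_pow]; norm_num

section charp
variable {p h : ℕ} [CharP K p]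

lemma cast_ne {n : ℕ} (h0 : 0 < n) (hn : n < p) : (n : K) ≠ 0 := by
  rw [Ne, CharP.cast_eq_zero_iff K p]
  exact Nat.not_dvd_of_pos_of_lt h0 hn

lemma two_ne (h3 : 3 < p) : (2 : K) ≠ 0 := by
  exact_mod_cast cast_ne (K := K) (n := 2) (by omega) (by omega : 2 < p)

lemma three_ne (h3 : 3 < p) : (3 : K) ≠ 0 := by
  exact_mod_cast cast_ne (K := K) (n := 3) (by omega) h3

lemma hcast (hp : p = 2 * h + 1) : 2 * (h : K) + 1 = 0 := by
  have := CharP.cast_eq_zero K p
  rw [hp] at this; exact_mod_cast this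

lemma refl_cast (hp : p = 2 * h + 1) {j : ℕ} (hj : j < h) :
    2 * ((h - 1 - j : ℕ) : K) + 1 = -(2 * j + 2) := by
  have e : ((h - 1 - j : ℕ) : K) = h - 1 - j := by
    rw [Nat.sub_sub, Nat.cast_sub (by omega)]; push_cast; ring
  rw [e]; linear_combination hcast (K := K) hp

lemma OO_half (hp : p = 2 * h + 1) (h3 : 3 < p) : HH K h = -2 * OO K h := by
  unfold OO HH
  rw [← sum_range_reflect (fun i => (2 * (i : K) + 1)⁻¹), mul_sum]
  apply sum_congr rfl; intro j hj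
  rw [refl_cast hp (mem_range.1 hj), inv_neg, inv_two_mul (two_ne h3)]
  field_simp [two_ne (K := K) h3]

lemma HH_full (hp : p = 2 * h + 1) (h3 : 3 < p) : HH K (2 * h) = 0 := by
  rw [HH_even (two_ne h3), OO_half hp h3]; field_simp [two_ne (K := K) h3]; ring

lemma O2_half (hp : p = 2 * h + 1) (h3 : 3 < p) : O2 K h = H2 K h / 4 := by
  unfold O2 H2
  rw [← sum_range_reflect (fun i => ((2 * (i : K) + 1)⁻¹) ^ 2), sum_div]
  apply sum_congr rfl; intro j hj
  rw [refl_cast hp (mem_range.1 hj), inv_neg, inv_two_mul (two_ne h3), neg_sq, div_pow]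
  norm_num

lemma H2_full_eq (hp : p = 2 * h + 1) : H2 K (2 * h) = 2 * H2 K h := by
  unfold H2
  rw [two_mul h, sum_range_add, two_mul]
  congr 1
  rw [← sum_range_reflect (fun i => (((i : K) + 1)⁻¹) ^ 2)]
  apply sum_congr rfl; intro j hj
  have hj := mem_range.1 hj
  have e : ((h - 1 - j : ℕ) : K) = h - 1 - j := by
    rw [Nat.sub_sub, Nat.cast_sub (by omega)]; push_cast; ring
  rw [e]; push_cast
  have : (h : K) + j + 1 = -(h - 1 - j + 1) := by linear_combination hcast (K := K) hp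
  rw [this, inv_neg]; ring

lemma H2_half (hp : p = 2 * h + 1) (h3 : 3 < p) : H2 K h = 0 := by
  have a := H2_full_eq (K := K) hp
  rw [H2_even (two_ne h3), O2_half hp h3] at a
  have h2 := two_ne (K := K) h3
  have h4 : (4 : K) ≠ 0 := by
    have := mul_ne_zero h2 h2; norm_num at this ⊢; exact this
  have : (3 : K) * H2 K h = 0 := by
    field_simp at a
    have : (2 : K) * (3 * H2 K h) = 0 := by linear_combination -a
    exact (mul_eq_zero.1 this).resolve_left h2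
  exact (mul_eq_zero.1 this).resolve_left (three_ne h3)

lemma O2_zero (hp : p = 2 * h + 1) (h3 : 3 < p) : O2 K h = 0 := by
  rw [O2_half hp h3, H2_half hp h3]; simp

lemma H2_full (hp : p = 2 * h + 1) (h3 : 3 < p) : H2 K (2 * h) = 0 := by
  rw [H2_full_eq hp, H2_half hp h3]; simp

lemma OO_upper (hp : p = 2 * h + 1) (h3 : 3 < p) (k : ℕ) :
    OO K (h + 1 + k) = OO K h + HH K k / 2 := by
  induction k with
  | zero => rw [add_zero, OO_succ, hcast hp, HH_zero]; simp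
  | succ k ih =>
    rw [← add_assoc, OO_succ, ih, HH_succ]
    push_cast
    have : 2 * ((h : K) + 1 + k) + 1 = 2 * k + 2 := by linear_combination hcast (K := K) hp
    rw [this, inv_two_mul (two_ne h3)]; ring

lemma HH_upper (hp : p = 2 * h + 1) (h3 : 3 < p) (k : ℕ) :
    HH K (h + k) = HH K h + 2 * OO K k := by
  induction k with
  | zero => simp [OO_zero]
  | succ k ih =>
    rw [← add_assoc, HH_succ, ih, OO_succ]
    push_cast
    have h2 := two_ne (K := K) h3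
    have : ((h : K) + k + 1) = (2 * k + 1) / 2 := by
      field_simp; linear_combination hcast (K := K) hp
    rw [this, inv_div, div_eq_mul_inv]; ring

end charp

end Pool.Agent.Work.MP_096b72_nt
end

-- merged part: Pool.Agent.Work.MP_096b72_nt.Dilog
section
set_option autoImplicit false

namespace Pool.Agent.Work.MP_096b72_nt

open Finset Polynomial

variable {K : Type*} [Field K]

noncomputable def E0 (h : ℕ) (c : ℕ → K) : K[X] := ∑ l ∈ range h, C (c l) * X ^ (2 * l)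

noncomputable def OdI (h : ℕ) (c : ℕ → K) : K[X] :=
  ∑ l ∈ range h, C (c l * (2 * (l : K) + 1)⁻¹) * X ^ (2 * l + 1)

noncomputable def EvI (h : ℕ) (c : ℕ → K) : K[X] :=
  ∑ l ∈ range h, C (c l * (2 * (l : K) + 2)⁻¹) * X ^ (2 * l + 2)

noncomputable def Rs (h : ℕ) (e : K) (c : ℕ → K) : K[X] :=
  ∑ j ∈ range (2 * h), C (e ^ (j + 1) * c j) * ((1 - X) ^ (j + 1) * (1 + X) ^ (2 * h - j))

lemma abel_E0 (h : ℕ) (S : ℕ → K) :
    (1 - X ^ 2) * E0 h S =
      C (S 0) + X ^ 2 * E0 h (fun l => S (l + 1) - S l) - C (S h) * X ^ (2 * h) := by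
  induction h with
  | zero => simp [E0]
  | succ h ih =>
    unfold E0 at ih ⊢
    simp only [sum_range_succ, C_sub] at ih ⊢
    linear_combination ih

lemma X_mul_E0 (h : ℕ) :
    X * E0 h (fun l => (2 * (l : K) + 1)⁻¹) = OdI h (fun _ => 1) := by
  unfold E0 OdI
  rw [mul_sum]
  apply sum_congr rfl; intro l _
  rw [one_mul]; ring

lemma X2_mul_E0 (h : ℕ) :
    X ^ 2 * E0 h (fun l => (2 * (l : K) + 2)⁻¹) = EvI h (fun _ => 1) := by
  unfold E0 EvI
  rw [mul_sum]
  apply sum_congr rfl; intro l _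
  rw [one_mul]; ring

lemma E0_add (h : ℕ) (c d : ℕ → K) : E0 h (fun l => c l + d l) = E0 h c + E0 h d := by
  unfold E0; rw [← sum_add_distrib]; apply sum_congr rfl; intro l _; rw [C_add]; ring

lemma E0_two (h : ℕ) (c : ℕ → K) : E0 h (fun l => 2 * c l) = 2 * E0 h c := by
  unfold E0; rw [mul_sum]; apply sum_congr rfl; intro l _; rw [C_mul, C_ofNat]; ring

lemma abel_one (h : ℕ) : (1 - X ^ 2) * E0 h (fun _ => (1 : K)) = 1 - X ^ (2 * h) := by
  rw [abel_E0]; simp [E0]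

lemma abel_O (h : ℕ) :
    (1 - X ^ 2) * E0 h (OO K) = X * OdI h (fun _ => 1) - C (OO K h) * X ^ (2 * h) := by
  rw [abel_E0, ← X_mul_E0, OO_zero]
  simp only [OO_succ, add_sub_cancel_left, map_zero]; ring

lemma abel_H (h2 : (2 : K) ≠ 0) (h : ℕ) :
    (1 - X ^ 2) * E0 h (HH K) = 2 * EvI h (fun _ => 1) - C (HH K h) * X ^ (2 * h) := by
  rw [abel_E0, ← X2_mul_E0, HH_zero]
  have : (fun l : ℕ => HH K (l + 1) - HH K l) = fun l : ℕ => 2 * (2 * (l : K) + 2)⁻¹ := by
    funext l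
    rw [HH_succ, inv_two_mul h2]; field_simp; ring
  rw [this, E0_two]
  simp only [map_zero]; ring

lemma E0_Osucc (h : ℕ) :
    X * E0 h (fun l => OO K (l + 1)) = X * E0 h (OO K) + OdI h (fun _ => 1) := by
  rw [← X_mul_E0, ← mul_add, ← E0_add]
  simp only [OO_succ]

lemma eval_OdI (h : ℕ) (c : ℕ → K) (x : K) :
    (OdI h c).eval x = x * ∑ l ∈ range h, (x ^ 2) ^ l * (c l * (2 * (l : K) + 1)⁻¹) := by
  unfold OdI
  rw [eval_finsetSum, mul_sum]
  apply sum_congr rfl; intro l _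
  simp only [eval_mul, eval_C, eval_pow, eval_X]; ring

lemma eval_EvI (h : ℕ) (c : ℕ → K) (x : K) :
    (EvI h c).eval x = ∑ l ∈ range h, (x ^ 2) ^ (l + 1) * (c l * (2 * (l : K) + 2)⁻¹) := by
  unfold EvI
  rw [eval_finsetSum]
  apply sum_congr rfl; intro l _
  simp only [eval_mul, eval_C, eval_pow, eval_X]; ring

lemma eval_Rs (h : ℕ) (e : K) (c : ℕ → K) (x : K) :
    (Rs h e c).eval x =
      ∑ j ∈ range (2 * h), e ^ (j + 1) * c j * ((1 - x) ^ (j + 1) * (1 + x) ^ (2 * h - j)) := by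
  unfold Rs
  rw [eval_finsetSum]
  apply sum_congr rfl; intro l _
  simp only [eval_mul, eval_C, eval_pow, eval_X, eval_sub, eval_add, eval_one]

lemma eval_Rs_one (h : ℕ) (e : K) (c : ℕ → K) : (Rs h e c).eval 1 = 0 := by
  rw [eval_Rs]; simp

lemma eval_Rs_neg_one (h : ℕ) (e : K) (c : ℕ → K) : (Rs h e c).eval (-1) = 0 := by
  rw [eval_Rs]
  apply sum_eq_zero; intro j hj
  have : 2 * h - j ≠ 0 := by have := mem_range.1 hj; omega
  simp [this]

lemma deg_OdI (h : ℕ) (c : ℕ → K) : (OdI h c).natDegree ≤ 2 * h := by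
  unfold OdI
  apply natDegree_sum_le_of_forall_le
  intro l hl
  have := mem_range.1 hl
  exact (natDegree_C_mul_X_pow_le _ _).trans (by omega)

lemma deg_EvI (h : ℕ) (c : ℕ → K) : (EvI h c).natDegree ≤ 2 * h := by
  unfold EvI
  apply natDegree_sum_le_of_forall_le
  intro l hl
  have := mem_range.1 hl
  exact (natDegree_C_mul_X_pow_le _ _).trans (by omega)

lemma deg_Rs (h : ℕ) (e : K) (c : ℕ → K) : (Rs h e c).natDegree ≤ 2 * h + 1 := by
  unfold Rs
  apply natDegree_sum_le_of_forall_le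
  intro j hj
  have := mem_range.1 hj
  refine (natDegree_C_mul_le _ _).trans ?_
  have a1 : ((1 - X : K[X]) ^ (j + 1)).natDegree ≤ (j + 1) * 1 :=
    natDegree_pow_le_of_le _ (by compute_degree)
  have a2 : ((1 + X : K[X]) ^ (2 * h - j)).natDegree ≤ (2 * h - j) * 1 :=
    natDegree_pow_le_of_le _ (by compute_degree)
  exact (natDegree_mul_le_of_le a1 a2).trans (by omega)

section charp
variable {p h : ℕ} [CharP K p]

lemma der_OdI (hp : p = 2 * h + 1) (c : ℕ → K) : derivative (OdI h c) = E0 h c := by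
  unfold OdI E0
  rw [derivative_sum]
  apply sum_congr rfl; intro l hl
  have hl := mem_range.1 hl
  have : (2 * (l : K) + 1) ≠ 0 := by
    exact_mod_cast cast_ne (K := K) (p := p) (n := 2 * l + 1) (by omega) (by omega)
  rw [derivative_C_mul_X_pow]
  congr 2
  push_cast; field_simp

lemma der_EvI (hp : p = 2 * h + 1) (c : ℕ → K) : derivative (EvI h c) = X * E0 h c := by
  unfold EvI E0
  rw [derivative_sum, mul_sum]
  apply sum_congr rfl; intro l hl
  have hl := mem_range.1 hl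
  have : (2 * (l : K) + 2) ≠ 0 := by
    exact_mod_cast cast_ne (K := K) (p := p) (n := 2 * l + 2) (by omega) (by omega)
  rw [derivative_C_mul_X_pow]
  have e : c l * (2 * (l : K) + 2)⁻¹ * ((2 * l + 2 : ℕ) : K) = c l := by
    push_cast; rw [mul_assoc, inv_mul_cancel₀ this, mul_one]
  rw [e, show 2 * l + 2 - 1 = 2 * l + 1 by omega]; ring

lemma der_Z (hp : p = 2 * h + 1) : derivative (X * X ^ (2 * h) : K[X]) = 0 := by
  rw [← pow_succ', derivative_X_pow, ← hp, CharP.cast_eq_zero]; simp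

lemma der_Rs (hp : p = 2 * h + 1) (e : K) (c : ℕ → K) :
    (1 - X ^ 2) * derivative (Rs h e (fun j => c j * ((j : K) + 1)⁻¹)) = -2 * Rs h e c := by
  unfold Rs
  rw [derivative_sum, mul_sum, mul_sum]
  apply sum_congr rfl; intro j hj
  have hj := mem_range.1 hj
  obtain ⟨m, hm⟩ : ∃ m, 2 * h - j = m + 1 := ⟨2 * h - j - 1, by omega⟩
  have hne : ((j : K) + 1) ≠ 0 := by
    exact_mod_cast cast_ne (K := K) (p := p) (n := j + 1) (by omega) (by omega)
  have hm' : ((m : K) + 1) = -((j : K) + 1) := by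
    have h1 := CharP.cast_eq_zero K p
    have : p = m + 1 + (j + 1) := by omega
    rw [this] at h1; push_cast at h1; linear_combination h1
  have hc : C (e ^ (j + 1) * (c j * ((j : K) + 1)⁻¹)) * C ((j : K) + 1) =
      C (e ^ (j + 1) * c j) := by
    rw [← C_mul]; congr 1; field_simp
  rw [hm, derivative_C_mul, derivative_mul, derivative_pow_succ, derivative_pow_succ, hm', ← hc]
  simp only [derivative_sub, derivative_add, derivative_one, derivative_X, C_neg]
  ring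

lemma ker_form (hpp : p.Prime) (f : K[X]) (hd : derivative f = 0) (hdeg : f.natDegree < 2 * p) :
    f = C (f.coeff 0) + C (f.coeff p) * X ^ p := by
  ext n
  have hp0 := hpp.pos
  rw [coeff_add, coeff_C, coeff_C_mul, coeff_X_pow]
  by_cases h0 : n = 0
  · subst h0; simp [hp0.ne]
  by_cases h1 : n = p
  · subst h1; simp [h0]
  simp only [h0, h1, if_false, mul_zero, add_zero]
  by_cases h2 : 2 * p ≤ n
  · exact coeff_eq_zero_of_natDegree_lt (by omega)
  obtain ⟨m, rfl⟩ : ∃ m, n = m + 1 := ⟨n - 1, by omega⟩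
  have h3 : f.coeff (m + 1) * ((m : K) + 1) = 0 := by
    have := congrArg (fun g => g.coeff m) hd
    simpa [coeff_derivative] using this
  have h4 : ((m : K) + 1) ≠ 0 := by
    have : ((m + 1 : ℕ) : K) ≠ 0 := by
      rw [Ne, CharP.cast_eq_zero_iff K p]
      rintro ⟨k, hk⟩
      rcases k with _ | _ | k
      · omega
      · omega
      · have : p * (k + 1 + 1) = 2 * p + p * k := by ring
        omega
    exact_mod_cast this
  exact (mul_eq_zero.1 h3).resolve_right h4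

lemma one_sub_X2_ne : (1 - X ^ 2 : K[X]) ≠ 0 := by
  intro h
  have := congrArg (fun g => g.eval 0) h
  simp at this

lemma ker_zero (hpp : p.Prime) (hp : p = 2 * h + 1) (h3 : 3 < p) (f : K[X])
    (hd : X * (1 - X ^ 2) * derivative f = 0) (hdeg : f.natDegree < 2 * p)
    (hv : (f.eval 0 = 0 ∧ f.eval 1 = 0) ∨ (f.eval 0 = 0 ∧ f.eval 1 = f.eval (-1)) ∨
      (f.eval 1 = 0 ∧ f.eval (-1) = 0)) : f = 0 := by
  have hd' : derivative f = 0 :=
    (mul_eq_zero.1 hd).resolve_left (mul_ne_zero X_ne_zero one_sub_X2_ne)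
  have hf := ker_form hpp f hd' hdeg
  generalize f.coeff 0 = a at hf
  generalize f.coeff p = b at hf
  have hodd : (-1 : K) ^ p = -1 := by rw [hp, pow_succ, pow_mul]; simp
  have h2 := two_ne (K := K) h3
  subst hf
  simp only [eval_add, eval_C, eval_mul, eval_pow, eval_X, hodd, zero_pow hpp.pos.ne', one_pow,
    mul_zero, add_zero, mul_one] at hv
  have : a = 0 ∧ b = 0 := by
    rcases hv with ⟨h1, h2'⟩ | ⟨h1, h2'⟩ | ⟨h1, h2'⟩
    · exact ⟨h1, by linear_combination h2' - h1⟩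
    · refine ⟨h1, ?_⟩
      have : 2 * b = 0 := by linear_combination h2'
      exact (mul_eq_zero.1 this).resolve_left h2
    · have e1 : 2 * b = 0 := by linear_combination h1 - h2'
      have e2 : 2 * a = 0 := by linear_combination h1 + h2'
      exact ⟨(mul_eq_zero.1 e2).resolve_left h2, (mul_eq_zero.1 e1).resolve_left h2⟩
  rw [this.1, this.2]; simp

end charp

end Pool.Agent.Work.MP_096b72_nt
end

-- merged part: Pool.Agent.Work.MP_096b72_nt.Ident
section
set_option autoImplicit false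

namespace Pool.Agent.Work.MP_096b72_nt

open Finset Polynomial

variable {K : Type*} [Field K] {p h : ℕ} [CharP K p]

omit [CharP K p] in
lemma a_one : (OdI h (fun _ => (1 : K))).eval 1 = OO K h := by
  rw [eval_OdI]; simp [OO]

lemma b_one (hp : p = 2 * h + 1) (h3 : 3 < p) : (EvI h (fun _ => (1 : K))).eval 1 = -OO K h := by
  have h2 := two_ne (K := K) h3
  have := OO_half (K := K) hp h3
  rw [eval_EvI]
  simp only [one_pow, one_mul, inv_two_mul h2, ← sum_div]
  change HH K h / 2 = _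
  rw [this]; field_simp

lemma Po_one (hp : p = 2 * h + 1) (h3 : 3 < p) :
    2 * (OdI h (OO K)).eval 1 = OO K h ^ 2 := by
  have a := sq_sum_eq (fun i : ℕ => (2 * (i : K) + 1)⁻¹) h
  have b := O2_zero (K := K) hp h3
  unfold O2 at b
  rw [b] at a
  rw [eval_OdI]
  simp only [one_pow, one_mul]
  unfold OO
  linear_combination -a

lemma Ne_one (hp : p = 2 * h + 1) (h3 : 3 < p) :
    (EvI h (HH K)).eval 1 = OO K h ^ 2 := by
  have h2 := two_ne (K := K) h3
  have a := sq_sum_eq (fun i : ℕ => ((i : K) + 1)⁻¹) h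
  have b := H2_half (K := K) hp h3
  have c := OO_half (K := K) hp h3
  unfold H2 at b
  rw [b] at a
  change HH K h ^ 2 = 2 * ∑ i ∈ range h, HH K i * _ + 0 at a
  rw [eval_EvI]
  simp only [one_pow, one_mul, inv_two_mul h2, ← mul_div_assoc, ← sum_div]
  rw [c] at a
  have : 2 * (∑ i ∈ range h, HH K i * ((i : K) + 1)⁻¹ - 2 * OO K h ^ 2) = 0 := by
    linear_combination -a
  have := (mul_eq_zero.1 this).resolve_left h2
  rw [div_eq_iff h2]
  linear_combination this

lemma Le_one (hp : p = 2 * h + 1) (h3 : 3 < p) :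
    (EvI h (fun l => (2 * (l : K) + 2)⁻¹)).eval 1 = 0 := by
  have h2 := two_ne (K := K) h3
  have b := H2_half (K := K) hp h3
  unfold H2 at b
  rw [eval_EvI]
  simp only [one_pow, one_mul, inv_two_mul h2, ← sq, div_pow, ← sum_div, b, zero_div]

lemma Lo_one (hp : p = 2 * h + 1) (h3 : 3 < p) :
    (OdI h (fun l => (2 * (l : K) + 1)⁻¹)).eval 1 = 0 := by
  have b := O2_zero (K := K) hp h3
  unfold O2 at b
  rw [eval_OdI]
  simp only [one_pow, one_mul, ← sq, b]

omit [CharP K p] in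
lemma OdI_zero (c : ℕ → K) : (OdI h c).eval 0 = 0 := by rw [eval_OdI]; simp
omit [CharP K p] in
lemma EvI_zero (c : ℕ → K) : (EvI h c).eval 0 = 0 := by rw [eval_EvI]; simp
omit [CharP K p] in
lemma OdI_neg (c : ℕ → K) : (OdI h c).eval (-1) = -(OdI h c).eval 1 := by
  rw [eval_OdI, eval_OdI]; simp
omit [CharP K p] in
lemma EvI_neg (c : ℕ → K) : (EvI h c).eval (-1) = (EvI h c).eval 1 := by
  rw [eval_EvI, eval_EvI]; simp

theorem P1 (hpp : p.Prime) (hp : p = 2 * h + 1) (h3 : 3 < p) :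
    OdI h (fun _ => (1 : K)) ^ 2 - 2 * EvI h (fun l => OO K (l + 1)) -
      (X * X ^ (2 * h)) * (2 * C (OO K h) * OdI h (fun _ => (1 : K)) - 2 * OdI h (OO K) -
        2 * OdI h (fun l => (2 * (l : K) + 1)⁻¹)) = 0 := by
  apply ker_zero hpp hp h3
  · have r1 := abel_one (K := K) h
    have r2 := abel_O (K := K) h
    have r4 := X_mul_E0 (K := K) h
    have r6 := E0_Osucc (K := K) h
    have dz := der_Z (K := K) hp
    generalize hZ : (X * X ^ (2 * h) : K[X]) = Z at dz ⊢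
    simp only [derivative_sub, derivative_mul, derivative_sq, der_OdI hp, der_EvI hp, dz,
      derivative_ofNat, derivative_C, r6, C_ofNat]
    subst hZ
    linear_combination X * (2 * OdI h (fun _ => (1 : K)) * r1 - 2 * X * r2 -
      X * X ^ (2 * h) * (2 * C (OO K h) * r1 - 2 * r2)) + 2 * (X * X ^ (2 * h)) * (1 - X ^ 2) * r4
  · have d1 := deg_OdI h (fun _ => (1 : K))
    have d2 := deg_EvI h (fun l => OO K (l + 1))
    have d3 := deg_OdI h (OO K)
    have d4 := deg_OdI h (fun l => (2 * (l : K) + 1)⁻¹)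
    refine lt_of_le_of_lt (?_ : _ ≤ 4 * h + 1) (by omega)
    compute_degree
    omega
  · right; left
    simp [OdI_zero, EvI_zero, OdI_neg, EvI_neg, pow_mul]
    ring

theorem P2 (hpp : p.Prime) (hp : p = 2 * h + 1) (h3 : 3 < p) :
    EvI h (fun _ => (1 : K)) ^ 2 - EvI h (HH K) +
      (X * X ^ (2 * h)) * (2 * C (OO K h) * OdI h (fun _ => (1 : K)) + OdI h (HH K)) = 0 := by
  apply ker_zero hpp hp h3
  · have r1 := abel_one (K := K) h
    have r3 := abel_H (K := K) (two_ne h3) h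
    rw [OO_half hp h3, C_mul, C_neg, C_ofNat] at r3
    have dz := der_Z (K := K) hp
    generalize hZ : (X * X ^ (2 * h) : K[X]) = Z at dz ⊢
    simp only [derivative_sub, derivative_add, derivative_mul, derivative_sq, der_OdI hp,
      der_EvI hp, dz, derivative_ofNat, derivative_C, C_ofNat]
    subst hZ
    linear_combination X * (2 * EvI h (fun _ => (1 : K)) * X * r1 - X * r3 +
      X * X ^ (2 * h) * (2 * C (OO K h) * r1 + r3))
  · have d1 := deg_OdI h (fun _ => (1 : K))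
    have d2 := deg_EvI h (fun _ => (1 : K))
    have d3 := deg_OdI h (HH K)
    have d4 := deg_EvI h (HH K)
    refine lt_of_le_of_lt (?_ : _ ≤ 4 * h + 1) (by omega)
    compute_degree
    omega
  · right; left
    simp [OdI_zero, EvI_zero, OdI_neg, EvI_neg, pow_mul]
    ring

lemma Pe_one (hpp : p.Prime) (hp : p = 2 * h + 1) (h3 : 3 < p) :
    (EvI h (fun l => OO K (l + 1))).eval 1 = 0 := by
  have a := congrArg (fun g => g.eval 1) (P1 (K := K) hpp hp h3)
  simp only [eval_sub, eval_mul, eval_pow, eval_X, eval_C, eval_ofNat, eval_zero, one_pow, a_one,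
    Po_one hp h3, Lo_one hp h3] at a
  have : 2 * (EvI h (fun l => OO K (l + 1))).eval 1 = 0 := by linear_combination -a
  exact (mul_eq_zero.1 this).resolve_left (two_ne h3)

lemma No_one (hpp : p.Prime) (hp : p = 2 * h + 1) (h3 : 3 < p) :
    (OdI h (HH K)).eval 1 = -2 * OO K h ^ 2 := by
  have a := congrArg (fun g => g.eval 1) (P2 (K := K) hpp hp h3)
  simp only [eval_sub, eval_add, eval_mul, eval_pow, eval_X, eval_C, eval_ofNat, eval_zero,
    one_pow, a_one, b_one hp h3, Ne_one hp h3] at a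
  linear_combination a

theorem P3 (hpp : p.Prime) (hp : p = 2 * h + 1) (h3 : 3 < p) :
    2 * OdI h (fun _ => (1 : K)) * EvI h (fun _ => (1 : K)) - 2 * OdI h (OO K) - OdI h (HH K) +
      (X * X ^ (2 * h)) * (2 * EvI h (fun l => OO K (l + 1)) + EvI h (HH K) +
        2 * EvI h (fun l => (2 * (l : K) + 2)⁻¹)) = 0 := by
  apply ker_zero hpp hp h3
  · have r1 := abel_one (K := K) h
    have r2 := abel_O (K := K) h
    have r3 := abel_H (K := K) (two_ne h3) h
    rw [OO_half hp h3, C_mul, C_neg, C_ofNat] at r3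
    have r5 := X2_mul_E0 (K := K) h
    have r6 := E0_Osucc (K := K) h
    have dz := der_Z (K := K) hp
    generalize hZ : (X * X ^ (2 * h) : K[X]) = Z at dz ⊢
    simp only [derivative_sub, derivative_add, derivative_mul, der_OdI hp,
      der_EvI hp, dz, derivative_ofNat, r6]
    subst hZ
    linear_combination X * (2 * EvI h (fun _ => (1 : K)) * r1 +
      2 * OdI h (fun _ => (1 : K)) * X * r1 - 2 * r2 - r3 +
      X * X ^ (2 * h) * (2 * X * r2 + X * r3)) + 2 * (X * X ^ (2 * h)) * (1 - X ^ 2) * r5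
  · have d1 := deg_OdI h (fun _ => (1 : K))
    have d2 := deg_EvI h (fun _ => (1 : K))
    have d3 := deg_OdI h (HH K)
    have d4 := deg_EvI h (HH K)
    have d5 := deg_OdI h (OO K)
    have d6 := deg_EvI h (fun l => OO K (l + 1))
    have d7 := deg_EvI h (fun l => (2 * (l : K) + 2)⁻¹)
    refine lt_of_le_of_lt (?_ : _ ≤ 4 * h + 1) (by omega)
    compute_degree
    omega
  · left
    constructor
    · simp [OdI_zero, EvI_zero]
    · have a := Po_one (K := K) hp h3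
      simp only [eval_sub, eval_add, eval_mul, eval_pow, eval_X, eval_ofNat,
        one_pow, a_one, b_one hp h3, Ne_one hp h3, No_one hpp hp h3, Pe_one hpp hp h3,
        Le_one hp h3]
      linear_combination -a

omit [CharP K p] in
lemma R0_gen (hp : p = 2 * h + 1) (e : K) :
    (C e * (1 - X) - (1 + X)) * Rs h e (fun _ => (1 : K)) =
      (1 + X) * (C e * (1 - X)) ^ p - (C e * (1 - X)) * (1 + X) ^ p := by
  have g := Commute.geom_sum₂_mul (Commute.all (C e * (1 - X) : K[X]) (1 + X)) (2 * h)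
  have e1 : Rs h e (fun _ => (1 : K)) = (C e * (1 - X)) * (1 + X) *
      ∑ i ∈ range (2 * h), (C e * (1 - X) : K[X]) ^ i * (1 + X) ^ (2 * h - 1 - i) := by
    unfold Rs
    rw [mul_sum]
    apply sum_congr rfl; intro j hj
    have hj := mem_range.1 hj
    rw [show 2 * h - j = (2 * h - 1 - j) + 1 by omega, mul_one, C_pow, mul_pow]
    ring
  rw [e1, hp]
  linear_combination (C e * (1 - X)) * (1 + X) * g

lemma frob (hpp : p.Prime) (hp : p = 2 * h + 1) :
    ((1 + X : K[X]) ^ p = 1 + X * X ^ (2 * h)) ∧ ((1 - X : K[X]) ^ p = 1 - X * X ^ (2 * h)) := by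
  have := Fact.mk hpp
  rw [add_pow_char, sub_pow_char, one_pow, ← pow_succ', ← hp]
  exact ⟨rfl, rfl⟩

lemma R0_plus (hpp : p.Prime) (hp : p = 2 * h + 1) (h3 : 3 < p) :
    Rs h 1 (fun _ => (1 : K)) = X ^ (2 * h) - 1 := by
  have g := R0_gen (K := K) hp 1
  rw [C_1, one_mul, (frob hpp hp).1, (frob hpp hp).2] at g
  have h2 : (2 * X : K[X]) ≠ 0 := by
    apply mul_ne_zero _ X_ne_zero
    rw [← C_ofNat]; exact C_ne_zero.2 (two_ne h3)
  apply mul_left_cancel₀ h2
  linear_combination -g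

lemma R0_minus (hpp : p.Prime) (hp : p = 2 * h + 1) (h3 : 3 < p) :
    Rs h (-1) (fun _ => (1 : K)) = X - X * X ^ (2 * h) := by
  have g := R0_gen (K := K) hp (-1)
  have hodd : (-1 : K[X]) ^ p = -1 := by rw [hp, pow_succ, pow_mul]; simp
  rw [C_neg, C_1, mul_pow, hodd, (frob hpp hp).1, (frob hpp hp).2] at g
  have h2 : (2 : K[X]) ≠ 0 := by
    rw [← C_ofNat]; exact C_ne_zero.2 (two_ne h3)
  apply mul_left_cancel₀ h2
  linear_combination -g

lemma R1_plus (hpp : p.Prime) (hp : p = 2 * h + 1) (h3 : 3 < p) :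
    Rs h 1 (fun j => (1 : K) * ((j : K) + 1)⁻¹) - 2 * OdI h (fun _ => (1 : K)) +
      2 * C (OO K h) * (X * X ^ (2 * h)) = 0 := by
  apply ker_zero hpp hp h3
  · have r1 := abel_one (K := K) h
    have r0 := der_Rs (K := K) hp 1 (fun _ => 1)
    rw [R0_plus hpp hp h3] at r0
    have dz := der_Z (K := K) hp
    generalize hZ : (X * X ^ (2 * h) : K[X]) = Z at dz ⊢
    simp only [derivative_sub, derivative_add, derivative_mul, der_OdI hp,
      dz, derivative_ofNat, derivative_C]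
    linear_combination X * (r0 - 2 * r1)
  · have d1 := deg_OdI h (fun _ => (1 : K))
    have d2 := deg_Rs h 1 (fun j => (1 : K) * ((j : K) + 1)⁻¹)
    simp only [one_mul] at d2 ⊢
    refine lt_of_le_of_lt (?_ : _ ≤ 4 * h + 1) (by omega)
    compute_degree
    omega
  · left
    constructor
    · have := HH_full (K := K) hp h3
      unfold HH at this
      simp [OdI_zero, eval_Rs, this]
    · simp [eval_Rs_one, a_one]

theorem R2_plus (hpp : p.Prime) (hp : p = 2 * h + 1) (h3 : 3 < p) :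
    Rs h 1 (fun j => (1 : K) * ((j : K) + 1)⁻¹ * ((j : K) + 1)⁻¹) +
      4 * EvI h (fun l => OO K (l + 1)) = 0 := by
  apply ker_zero hpp hp h3
  · have r2 := abel_O (K := K) h
    have r6 := E0_Osucc (K := K) h
    have r0 := der_Rs (K := K) hp 1 (fun j => (1 : K) * ((j : K) + 1)⁻¹)
    have r7 := R1_plus (K := K) hpp hp h3
    simp only [derivative_add, derivative_mul, der_EvI hp, derivative_ofNat, r6]
    linear_combination X * (r0 - 2 * r7 + 4 * X * r2)
  · have d1 := deg_EvI h (fun l => OO K (l + 1))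
    have d2 := deg_Rs h 1 (fun j => (1 : K) * ((j : K) + 1)⁻¹ * ((j : K) + 1)⁻¹)
    simp only [one_mul] at d2 ⊢
    refine lt_of_le_of_lt (?_ : _ ≤ 4 * h + 1) (by omega)
    compute_degree
    omega
  · right; right
    simp [eval_Rs_one, eval_Rs_neg_one, EvI_neg, Pe_one hpp hp h3]

lemma R1_minus (hpp : p.Prime) (hp : p = 2 * h + 1) (h3 : 3 < p) :
    Rs h (-1) (fun j => (1 : K) * ((j : K) + 1)⁻¹) + 2 * EvI h (fun _ => (1 : K)) +
      2 * C (OO K h) = 0 := by
  apply ker_zero hpp hp h3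
  · have r1 := abel_one (K := K) h
    have r0 := der_Rs (K := K) hp (-1) (fun _ => 1)
    rw [R0_minus hpp hp h3] at r0
    simp only [derivative_add, derivative_mul, der_EvI hp, derivative_ofNat, derivative_C]
    linear_combination X * (r0 + 2 * X * r1)
  · have d1 := deg_EvI h (fun _ => (1 : K))
    have d2 := deg_Rs h (-1) (fun j => (1 : K) * ((j : K) + 1)⁻¹)
    simp only [one_mul] at d2 ⊢
    refine lt_of_le_of_lt (?_ : _ ≤ 4 * h + 1) (by omega)
    compute_degree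
    omega
  · right; right
    simp [eval_Rs_one, eval_Rs_neg_one, EvI_neg, b_one hp h3]

theorem R2_minus (hpp : p.Prime) (hp : p = 2 * h + 1) (h3 : 3 < p) :
    Rs h (-1) (fun j => (1 : K) * ((j : K) + 1)⁻¹ * ((j : K) + 1)⁻¹) -
      2 * OdI h (HH K) - 4 * C (OO K h) * OdI h (fun _ => (1 : K)) = 0 := by
  apply ker_zero hpp hp h3
  · have r1 := abel_one (K := K) h
    have r3 := abel_H (K := K) (two_ne h3) h
    rw [OO_half hp h3, C_mul, C_neg, C_ofNat] at r3
    have r0 := der_Rs (K := K) hp (-1) (fun j => (1 : K) * ((j : K) + 1)⁻¹)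
    have r7 := R1_minus (K := K) hpp hp h3
    simp only [derivative_sub, derivative_mul, der_OdI hp, derivative_ofNat, derivative_C]
    linear_combination X * (r0 - 2 * r7 - 2 * r3 - 4 * C (OO K h) * r1)
  · have d1 := deg_OdI h (fun _ => (1 : K))
    have d3 := deg_OdI h (HH K)
    have d2 := deg_Rs h (-1) (fun j => (1 : K) * ((j : K) + 1)⁻¹ * ((j : K) + 1)⁻¹)
    simp only [one_mul] at d2 ⊢
    refine lt_of_le_of_lt (?_ : _ ≤ 4 * h + 1) (by omega)
    compute_degree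
    omega
  · right; right
    simp [eval_Rs_one, eval_Rs_neg_one, OdI_neg, a_one, No_one hpp hp h3]
    constructor <;> ring

end Pool.Agent.Work.MP_096b72_nt
end

-- merged part: Pool.Agent.Work.MP_096b72_nt.Eval
section
set_option autoImplicit false

namespace Pool.Agent.Work.MP_096b72_nt

open Finset Polynomial

variable {K : Type*} [Field K] {p h : ℕ} [CharP K p]

def so (h : ℕ) (c : ℕ → K) : K := ∑ l ∈ range h, (-3) ^ l * (c l * (2 * (l : K) + 1)⁻¹)
def se (h : ℕ) (c : ℕ → K) : K := ∑ l ∈ range h, (-3) ^ (l + 1) * (c l * (2 * (l : K) + 2)⁻¹)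
def LL (h : ℕ) (x : K) : K := ∑ j ∈ range (2 * h), x ^ (j + 1) * (((j : K) + 1)⁻¹) ^ 2
def s0 (K : Type*) [Field K] (h : ℕ) : K :=
  ∑ j ∈ range (2 * h), if 3 ∣ j + 1 then (((j : K) + 1)⁻¹) ^ 2 else 0

lemma LL_inv (hp : p = 2 * h + 1) (x w : K) (hxw : x * w = 1) : x ^ p * LL h w = LL h x := by
  unfold LL
  rw [← sum_range_reflect (fun j => x ^ (j + 1) * (((j : K) + 1)⁻¹) ^ 2), mul_sum]
  apply sum_congr rfl; intro j hj
  have hj := mem_range.1 hj
  have e : ((2 * h - 1 - j : ℕ) : K) + 1 = -((j : K) + 1) := by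
    rw [Nat.sub_sub, Nat.cast_sub (by omega)]; push_cast
    linear_combination hcast (K := K) hp
  rw [e, inv_neg, neg_sq]
  have e2 : p = (2 * h - 1 - j + 1) + (j + 1) := by omega
  have e3 : x ^ p * w ^ (j + 1) = x ^ (2 * h - 1 - j + 1) := by
    conv_lhs => rw [e2, pow_add, mul_assoc, ← mul_pow, hxw, one_pow, mul_one]
  rw [← e3]; ring

omit [CharP K p] in
lemma LL_filter (w : K) (hw : w ^ 2 + w + 1 = 0) :
    LL h 1 + LL h w + LL h (w ^ 2) = 3 * s0 K h := by
  unfold LL s0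
  rw [← sum_add_distrib, ← sum_add_distrib, mul_sum]
  apply sum_congr rfl; intro j _
  have w3 : w ^ 3 = 1 := by linear_combination (w - 1) * hw
  generalize (((j : K) + 1)⁻¹) ^ 2 = c
  generalize j + 1 = n
  have hn := Nat.div_add_mod n 3
  have e1 : w ^ n = w ^ (n % 3) := by
    conv_lhs => rw [← hn, pow_add, pow_mul, w3, one_pow, one_mul]
  rw [← pow_mul, mul_comm 2 n, pow_mul, e1, one_pow]
  have : n % 3 = 0 ∨ n % 3 = 1 ∨ n % 3 = 2 := by omega
  rcases this with h0 | h0 | h0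
  · rw [if_pos (by omega), h0]; ring
  · rw [if_neg (by omega), h0]; linear_combination c * hw
  · rw [if_neg (by omega), h0]; linear_combination c * (w ^ 2 - w + 1) * hw

lemma LL_dist (hp : p = 2 * h + 1) (h3 : 3 < p) (x : K) :
    2 * ((1 + x ^ p) * LL h x + (1 - x ^ p) * LL h (-x)) = LL h (x ^ 2) := by
  have h2 := two_ne (K := K) h3
  have e1 : ∀ z : K, LL h z = ∑ l ∈ range h, z ^ (2 * l + 1) * ((2 * (l : K) + 1)⁻¹) ^ 2 +
      ∑ l ∈ range h, z ^ (2 * l + 2) * ((2 * (l : K) + 2)⁻¹) ^ 2 := by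
    intro z
    unfold LL
    rw [sum_even_odd, ← sum_add_distrib]
    apply sum_congr rfl; intro l _
    push_cast
    rw [show 2 * (l : K) + 1 + 1 = 2 * l + 2 by ring]
  have e2 : LL h (x ^ 2) = 4 * ∑ l ∈ range h, x ^ (2 * l + 2) * ((2 * (l : K) + 2)⁻¹) ^ 2 +
      4 * x ^ p * ∑ l ∈ range h, x ^ (2 * l + 1) * ((2 * (l : K) + 1)⁻¹) ^ 2 := by
    unfold LL
    rw [two_mul h, sum_range_add, mul_sum, mul_sum]
    congr 1
    · apply sum_congr rfl; intro l _
      have : ((l : K) + 1)⁻¹ = 2 * (2 * (l : K) + 2)⁻¹ := by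
        rw [inv_two_mul h2]; field_simp
      rw [this]; ring
    · apply sum_congr rfl; intro l _
      have : (((h + l : ℕ) : K) + 1)⁻¹ = 2 * (2 * (l : K) + 1)⁻¹ := by
        have : (((h + l : ℕ) : K) + 1) = (2 * l + 1) / 2 := by
          push_cast; field_simp; linear_combination hcast (K := K) hp
        rw [this, inv_div, div_eq_mul_inv]
      rw [this, hp]; ring
  rw [e2, e1 x, e1 (-x)]
  have o1 : ∑ l ∈ range h, (-x) ^ (2 * l + 1) * ((2 * (l : K) + 1)⁻¹) ^ 2 =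
      -∑ l ∈ range h, x ^ (2 * l + 1) * ((2 * (l : K) + 1)⁻¹) ^ 2 := by
    rw [← sum_neg_distrib]; apply sum_congr rfl; intro l _
    rw [pow_succ, pow_mul, neg_sq, ← pow_mul]; ring
  have o2 : ∑ l ∈ range h, (-x) ^ (2 * l + 2) * ((2 * (l : K) + 2)⁻¹) ^ 2 =
      ∑ l ∈ range h, x ^ (2 * l + 2) * ((2 * (l : K) + 2)⁻¹) ^ 2 := by
    apply sum_congr rfl; intro l _
    rw [show 2 * l + 2 = 2 * (l + 1) by ring, pow_mul, neg_sq, ← pow_mul]
  rw [o1, o2]; ring

lemma eval_R2 (hpp : p.Prime) (hp : p = 2 * h + 1) (w : K) (hw : w ^ 2 + w + 1 = 0) (e : K) :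
    (Rs h e (fun j => (1 : K) * ((j : K) + 1)⁻¹ * ((j : K) + 1)⁻¹)).eval (1 + 2 * w) =
      -2 * (w ^ p) ^ 2 * LL h (e * w ^ 2) := by
  have := Fact.mk hpp
  have w3 : w ^ 3 = 1 := by linear_combination (w - 1) * hw
  have f2 : (-2 : K) ^ p = -2 := by
    have a : ((-2 : ℤ) : K) ^ p = ((-2 : ℤ) : K) := by
      rw [← frobenius_def, map_intCast]
    exact_mod_cast a
  rw [eval_Rs]
  unfold LL
  rw [mul_sum]
  apply sum_congr rfl; intro j hj
  have hj := mem_range.1 hj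
  obtain ⟨m, hm⟩ : ∃ m, 2 * h - j = m := ⟨_, rfl⟩
  have hp' : p = m + (j + 1) := by omega
  have a1 : (1 - (1 + 2 * w)) = -2 * w := by ring
  have a2 : (1 + (1 + 2 * w)) = -2 * w ^ 2 := by linear_combination 2 * hw
  have a3 : (-2 : K) ^ (j + 1) * (-2) ^ m = -2 := by rw [← pow_add, add_comm, ← hp', f2]
  have a4 : (w ^ 3) ^ (j + 1) = 1 := by rw [w3, one_pow]
  rw [hm, a1, a2, hp', mul_pow, mul_pow, mul_pow]
  generalize ((j : K) + 1)⁻¹ = c
  have a5 : (w ^ (m + (j + 1))) ^ 2 * (w ^ 2) ^ (j + 1) =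
      w ^ (j + 1) * (w ^ 2) ^ m * (w ^ 3) ^ (j + 1) := by ring
  rw [a4] at a5
  linear_combination e ^ (j + 1) * c ^ 2 * (w ^ (j + 1) * (w ^ 2) ^ m * a3 + 2 * a5)

omit [CharP K p] in
lemma so_add (c d : ℕ → K) : so h (fun l => c l + d l) = so h c + so h d := by
  unfold so; rw [← sum_add_distrib]; apply sum_congr rfl; intro l _; ring

theorem Kvals (hpp : p.Prime) (hp : p = 2 * h + 1) (h3 : 3 < p) (w : K)
    (hw : w ^ 2 + w + 1 = 0) (χ : K) (hχ : (-3 : K) ^ h = χ) (hχ2 : χ ^ 2 = 1) :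
    (2 * se h (fun l => OO K (l + 1)) = -3 * s0 K h) ∧
    (2 * (so h (HH K) + 2 * OO K h * so h (fun _ => 1)) = 3 * χ * s0 K h) ∧
    (-3 * so h (fun _ => (1 : K)) ^ 2 - 2 * se h (fun l => OO K (l + 1)) + 3 * χ *
      (2 * OO K h * so h (fun _ => 1) - 2 * so h (OO K) -
        2 * so h (fun l => (2 * (l : K) + 1)⁻¹)) = 0) ∧
    (se h (fun _ => (1 : K)) ^ 2 - se h (HH K) - 3 * χ *
      (2 * OO K h * so h (fun _ => 1) + so h (HH K)) = 0) ∧
    (2 * so h (fun _ => (1 : K)) * se h (fun _ => (1 : K)) - 2 * so h (OO K) - so h (HH K) +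
      χ * (2 * se h (fun l => OO K (l + 1)) + se h (HH K) +
        2 * se h (fun l => (2 * (l : K) + 2)⁻¹)) = 0) := by
  have := Fact.mk hpp
  have h2 := two_ne (K := K) h3
  have h3' := three_ne (K := K) h3
  have w3 : w ^ 3 = 1 := by linear_combination (w - 1) * hw
  set y : K := 1 + 2 * w with hy
  have y2 : y ^ 2 = -3 := by rw [hy]; linear_combination 4 * hw
  have y0 : y ≠ 0 := by
    intro h0; rw [h0] at y2; apply h3'; linear_combination y2
  have eo : ∀ c : ℕ → K, (OdI h c).eval y = y * so h c := by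
    intro c; rw [eval_OdI, y2]; rfl
  have ee : ∀ c : ℕ → K, (EvI h c).eval y = se h c := by
    intro c; rw [eval_EvI, y2]; rfl
  have yh : y ^ (2 * h) = χ := by rw [pow_mul, y2, hχ]
  set W : K := w ^ p with hW
  have hW1 : W ^ 2 + W + 1 = 0 := by
    have a := congrArg (frobenius K p) hw
    rw [map_add, map_add, map_pow, map_one, map_zero, frobenius_def] at a
    exact a
  have W3 : W ^ 3 = 1 := by linear_combination (W - 1) * hW1
  have W0 : W ≠ 0 := by intro h0; rw [h0] at hW1; simp at hW1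
  have yW : χ * y = 1 + 2 * W := by
    have a : y ^ p = 1 + 2 * W := by
      have f2 : (2 : K) ^ p = 2 := by
        have a : ((2 : ℕ) : K) ^ p = ((2 : ℕ) : K) := by
          rw [← frobenius_def, map_natCast]
        exact_mod_cast a
      rw [hy, add_pow_char, one_pow, mul_pow, f2]
    rw [← a, hp, pow_succ, yh]
  have l1 : LL h (1 : K) = 0 := by
    have := H2_full (K := K) hp h3
    unfold H2 at this
    simp only [LL, one_pow, one_mul, this]
  have l2 := LL_filter (h := h) w hw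
  have l3 := LL_inv hp w (w ^ 2) (by linear_combination w3)
  have l4 := LL_dist hp h3 (w ^ 2)
  have e4 : (w ^ 2) ^ 2 = w := by linear_combination w * w3
  have e5 : (w ^ 2) ^ p = W ^ 2 := by rw [hW, ← pow_mul, ← pow_mul, mul_comm]
  rw [e4, e5] at l4
  rw [← hW] at l3
  rw [l1] at l2
  have l5 : -W ^ 2 * LL h (w ^ 2) = 3 * s0 K h := by
    linear_combination l2 + l3 - LL h (w ^ 2) * hW1
  refine ⟨?_, ?_, ?_, ?_, ?_⟩
  · have a := congrArg (fun g => g.eval y) (R2_plus (K := K) hpp hp h3)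
    simp only [eval_add, eval_mul, eval_ofNat, eval_zero, ee] at a
    rw [hy, eval_R2 hpp hp w hw, one_mul, ← hW] at a
    apply mul_left_cancel₀ h2
    linear_combination a - 2 * l5
  · have a := congrArg (fun g => g.eval y) (R2_minus (K := K) hpp hp h3)
    simp only [eval_sub, eval_mul, eval_ofNat, eval_zero, eo, eval_C] at a
    rw [hy, eval_R2 hpp hp w hw, neg_one_mul, ← hW, ← hy] at a
    set T : K := so h (HH K) + 2 * OO K h * so h (fun _ => 1) with hT
    have b : -W ^ 2 * LL h (-w ^ 2) = y * T := by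
      apply mul_left_cancel₀ h2
      rw [hT]; linear_combination a
    have c : 2 * (1 - W ^ 2) * LL h (-w ^ 2) = 3 * W * LL h (w ^ 2) := by
      linear_combination l4 - l3 - 2 * LL h (w ^ 2) * hW1
    have d : 2 * (1 - W ^ 2) * (y * T) = 9 * W * s0 K h := by
      rw [← b]; linear_combination -W ^ 2 * c + 3 * W * l5
    have e : (3 * W) * (2 * T) = (3 * W) * (3 * χ * s0 K h) := by
      have : (1 + 2 * W) * (1 - W ^ 2) = 3 * W := by
        linear_combination (1 - 2 * W) * hW1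
      linear_combination χ * d - 2 * T * this - 2 * T * (1 - W ^ 2) * yW
    exact mul_left_cancel₀ (mul_ne_zero h3' W0) e
  · have a := congrArg (fun g => g.eval y) (P1 (K := K) hpp hp h3)
    simp only [eval_sub, eval_mul, eval_ofNat, eval_zero, eo, ee, eval_C, eval_pow, eval_X,
      yh] at a
    linear_combination a - (so h (fun _ => (1 : K)) ^ 2 - χ * (2 * OO K h * so h (fun _ => 1) -
      2 * so h (OO K) - 2 * so h (fun l => (2 * (l : K) + 1)⁻¹))) * y2
  · have a := congrArg (fun g => g.eval y) (P2 (K := K) hpp hp h3)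
    simp only [eval_sub, eval_add, eval_mul, eval_ofNat, eval_zero, eo, ee, eval_C, eval_pow,
      eval_X, yh] at a
    linear_combination a - χ * (2 * OO K h * so h (fun _ => 1) + so h (HH K)) * y2
  · have a := congrArg (fun g => g.eval y) (P3 (K := K) hpp hp h3)
    simp only [eval_sub, eval_add, eval_mul, eval_ofNat, eval_zero, eo, ee, eval_pow,
      eval_X, yh] at a
    apply mul_left_cancel₀ y0
    linear_combination a

theorem Kmain (hpp : p.Prime) (hp : p = 2 * h + 1) (h3 : 3 < p) (w : K)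
    (hw : w ^ 2 + w + 1 = 0) (χ : K) (hχ : (-3 : K) ^ h = χ) (hχ2 : χ ^ 2 = 1)
    (hae : se h (fun _ => (1 : K)) = -OO K h) :
    -so h (fun l => 2 * (2 * (l : K) + 1)⁻¹ + (4 * OO K l - 3 * HH K l)) -
      so h (fun l => HH K (2 * l)) +
      3 * χ * (se h (fun l => HH K (2 * l + 1)) +
        se h (fun l => (2 * (l : K) + 2)⁻¹ + (4 * OO K (h + 1 + l) - 3 * HH K (h + 1 + l)))) =
      5 * χ * s0 K h - 24 * χ * OO K h ^ 2 - 7 * OO K h * so h (fun _ => 1) +
        χ * so h (fun _ => 1) ^ 2 := by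
  obtain ⟨k1, k2, k3, k4, k5⟩ := Kvals hpp hp h3 w hw χ hχ hχ2
  have h2 := two_ne (K := K) h3
  have h3' := three_ne (K := K) h3
  have e1 : so h (fun l => 2 * (2 * (l : K) + 1)⁻¹ + (4 * OO K l - 3 * HH K l)) =
      2 * so h (fun l => (2 * (l : K) + 1)⁻¹) + 4 * so h (OO K) - 3 * so h (HH K) := by
    unfold so; simp only [mul_sum, ← sum_add_distrib, ← sum_sub_distrib]
    apply sum_congr rfl; intro l _; ring
  have e2 : 2 * so h (fun l => HH K (2 * l)) = 2 * so h (OO K) + so h (HH K) := by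
    unfold so; simp only [mul_sum, ← sum_add_distrib]
    apply sum_congr rfl; intro l _; rw [HH_even h2]; field_simp
  have e3 : 2 * se h (fun l => HH K (2 * l + 1)) =
      2 * se h (fun l => OO K (l + 1)) + se h (HH K) := by
    unfold se; simp only [mul_sum, ← sum_add_distrib]
    apply sum_congr rfl; intro l _; rw [HH_odd h2]; field_simp
  have e4 : se h (fun l => (2 * (l : K) + 2)⁻¹ + (4 * OO K (h + 1 + l) - 3 * HH K (h + 1 + l))) =
      se h (fun l => (2 * (l : K) + 2)⁻¹) + 10 * OO K h * se h (fun _ => 1) + 2 * se h (HH K) -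
        6 * se h (fun l => OO K (l + 1)) := by
    unfold se; simp only [mul_sum, ← sum_add_distrib, ← sum_sub_distrib]
    apply sum_congr rfl; intro l _
    rw [OO_upper hp h3, show h + 1 + l = h + (l + 1) by ring, HH_upper hp h3, OO_half hp h3]
    generalize (2 * (l : K) + 2)⁻¹ = c
    field_simp; ring
  rw [e1, e4]
  rw [hae] at k4 k5 ⊢
  generalize so h (fun l => HH K (2 * l)) = Mo at *
  generalize se h (fun l => HH K (2 * l + 1)) = Me at *
  generalize so h (fun l => (2 * (l : K) + 1)⁻¹) = Lo at *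
  generalize se h (fun l => (2 * (l : K) + 2)⁻¹) = Le at *
  generalize so h (OO K) = Po at *
  generalize so h (HH K) = No at *
  generalize se h (fun l => OO K (l + 1)) = Pe at *
  generalize se h (HH K) = Ne at *
  generalize so h (fun _ => (1 : K)) = a at *
  generalize OO K h = q at *
  generalize s0 K h = s at *
  apply mul_left_cancel₀ (mul_ne_zero h2 h3')
  linear_combination (-3) * e2 + 9 * χ * e3 + (-52) * χ * k1 + (-42) * k2 + 2 * χ * k3 +
    (-36) * χ * k4 + 9 * k5 + (12 * Lo + 12 * Po - 108 * No - 228 * q * a) * hχ2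

end Pool.Agent.Work.MP_096b72_nt
end

-- merged part: Pool.Agent.Work.MP_096b72_nt.Ring3
section
set_option autoImplicit false

namespace Pool.Agent.Work.MP_096b72_nt

open Finset

abbrev RR (p : ℕ) := ZMod (p ^ 3)
abbrev KK (p : ℕ) [Fact p.Prime] := AlgebraicClosure (ZMod p)

variable {p : ℕ} [hpp : Fact p.Prime]

noncomputable def psi (p : ℕ) [Fact p.Prime] : RR p →+* KK p :=
  (algebraMap (ZMod p) (KK p)).comp (ZMod.castHom (dvd_pow_self p three_ne_zero) (ZMod p))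

noncomputable def io (p : ℕ) (d : ℤ) : RR p := Ring.inverse (d : RR p)

omit hpp in
lemma p3 : (p : RR p) ^ 3 = 0 := by
  have := ZMod.natCast_self (p ^ 3)
  exact_mod_cast this

lemma psi_int (d : ℤ) : psi p (d : RR p) = (d : KK p) := map_intCast _ _

lemma psi_p : psi p (p : RR p) = 0 := by rw [map_natCast]; exact CharP.cast_eq_zero _ p

lemma psi_ker {x : RR p} (hx : psi p x = 0) : ∃ y, x = p * y := by
  obtain ⟨k, rfl⟩ := ZMod.intCast_surjective x
  rw [psi_int, CharP.intCast_eq_zero_iff (KK p) p] at hx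
  obtain ⟨y, rfl⟩ := hx
  exact ⟨y, by push_cast; ring⟩

lemma psi_eq {x y : RR p} (h : psi p x = psi p y) : (p : RR p) ^ 2 * x = (p : RR p) ^ 2 * y := by
  obtain ⟨c, hc⟩ := psi_ker (x := x - y) (by rw [map_sub, h, sub_self])
  linear_combination (p : RR p) ^ 2 * hc + c * p3 (p := p)

lemma psi_of {x y : RR p} (h : (p : RR p) ^ 2 * x = (p : RR p) ^ 2 * y) : psi p x = psi p y := by
  obtain ⟨k, hk⟩ := ZMod.intCast_surjective (x - y)
  have h1 : (((p : ℤ) ^ 2 * k : ℤ) : RR p) = 0 := by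
    push_cast; rw [hk]; linear_combination h
  rw [ZMod.intCast_zmod_eq_zero_iff_dvd] at h1
  push_cast at h1
  have hp0 : (p : ℤ) ^ 2 ≠ 0 := pow_ne_zero _ (by exact_mod_cast hpp.out.ne_zero)
  have h2 : (p : ℤ) ∣ k := by
    rw [pow_succ] at h1
    exact (mul_dvd_mul_iff_left hp0).1 h1
  rw [← sub_eq_zero, ← map_sub, ← hk, psi_int, CharP.intCast_eq_zero_iff (KK p) p]
  exact h2

lemma isUnit_int {d : ℤ} (hd : ¬ (p : ℤ) ∣ d) : IsUnit (d : RR p) := by
  have hc : IsCoprime d ((p : ℤ) ^ 3) := by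
    apply IsCoprime.pow_right
    exact ((Nat.prime_iff_prime_int.1 hpp.out).irreducible.coprime_iff_not_dvd.2 hd).symm
  obtain ⟨a, b, hab⟩ := hc
  have := congrArg (fun z : ℤ => (z : RR p)) hab
  simp only [Int.cast_add, Int.cast_mul, Int.cast_pow, Int.cast_natCast, p3, mul_zero, add_zero,
    Int.cast_one] at this
  exact IsUnit.of_mul_eq_one_right _ this

lemma io_mul {d : ℤ} (hd : ¬ (p : ℤ) ∣ d) : (d : RR p) * io p d = 1 :=
  Ring.mul_inverse_cancel _ (isUnit_int hd)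

lemma psi_io (d : ℤ) : psi p (io p d) = (d : KK p)⁻¹ := by
  by_cases hd : (p : ℤ) ∣ d
  · have h0 : (d : KK p) = 0 := (CharP.intCast_eq_zero_iff (KK p) p d).2 hd
    have hu : ¬ IsUnit (d : RR p) := by
      intro hu
      have := hu.map (psi p)
      rw [psi_int, h0] at this
      exact not_isUnit_zero this
    unfold io
    rw [Ring.inverse_non_unit _ hu, h0]; simp
  · have := congrArg (psi p) (io_mul hd)
    rw [map_mul, psi_int, map_one] at this
    exact eq_inv_of_mul_eq_one_right this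

omit hpp in
lemma io_zero : io p 0 = 0 := by simp [io]

omit hpp in
lemma not_dvd_of_lt {d : ℤ} (h0 : 0 < d) (h1 : d < p) : ¬ (p : ℤ) ∣ d := by
  intro h; have := Int.le_of_dvd h0 h; omega

lemma io_shift {d c : ℤ} (hd : ¬ (p : ℤ) ∣ d) :
    (p : RR p) * io p (d + p * c) = p * io p d - p ^ 2 * c * io p d ^ 2 := by
  have hd' : ¬ (p : ℤ) ∣ d + p * c := by
    intro h; apply hd; exact (dvd_add_left (dvd_mul_right _ _)).1 h
  have a := io_mul hd
  have b := io_mul hd'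
  push_cast at b
  generalize io p (d + p * c) = u at b ⊢
  generalize io p d = v at a ⊢
  linear_combination (p * v - p ^ 2 * c * v ^ 2) * b - (p * u - p ^ 2 * c * u * v) * a +
    c ^ 2 * u * v ^ 2 * p3 (p := p)

lemma io_two_mul (h3 : 3 < p) {d : ℤ} (hd : ¬ (p : ℤ) ∣ d) : 2 * io p (2 * d) = io p d := by
  have h2 : ¬ (p : ℤ) ∣ 2 := not_dvd_of_lt (by omega) (by omega)
  have hd' : ¬ (p : ℤ) ∣ 2 * d := by
    intro h
    rcases (Nat.prime_iff_prime_int.1 hpp.out).dvd_or_dvd h with h | h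
    · exact h2 h
    · exact hd h
  have a := io_mul hd
  have b := io_mul hd'
  push_cast at b
  linear_combination io p d * b - 2 * io p (2 * d) * a

lemma cancel_two (h3 : 3 < p) {x y : RR p} (h : 2 * x = 2 * y) : x = y := by
  have h2 : ¬ (p : ℤ) ∣ 2 := not_dvd_of_lt (by omega) (by omega)
  have a := io_mul h2
  push_cast at a
  linear_combination io p 2 * h - (x - y) * a

section generic
variable {R : Type*} [CommRing R]

lemma prod1 (δ n : R) (hn : δ * n ^ 2 = 0) (u c s : ℕ → R) (r : ℕ)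
    (H : ∀ j < r, δ * u j = δ * (c j * (1 + n * s j))) :
    δ * ∏ j ∈ range r, u j = δ * ((∏ j ∈ range r, c j) * (1 + n * ∑ j ∈ range r, s j)) := by
  induction r with
  | zero => simp
  | succ r ih =>
    have ih := ih (fun j hj => H j (by omega))
    have h := H r (by omega)
    simp only [prod_range_succ, sum_range_succ]
    linear_combination u r * ih +
      ((∏ j ∈ range r, c j) * (1 + n * ∑ j ∈ range r, s j)) * h +
      ((∏ j ∈ range r, c j) * c r * (∑ j ∈ range r, s j) * s r) * hn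

lemma prod2 (π : R) (hπ : π ^ 3 = 0) (a : ℕ → R) (r : ℕ) :
    2 * ∏ j ∈ range r, (1 + π * a j) =
      2 + 2 * π * ∑ j ∈ range r, a j +
        π ^ 2 * ((∑ j ∈ range r, a j) ^ 2 - ∑ j ∈ range r, a j ^ 2) := by
  induction r with
  | zero => simp
  | succ r ih =>
    simp only [prod_range_succ, sum_range_succ]
    linear_combination (1 + π * a r) * ih +
      a r * ((∑ j ∈ range r, a j) ^ 2 - ∑ j ∈ range r, a j ^ 2) * hπ

lemma pow_odd3 (π : R) (hπ : π ^ 3 = 0) (a : R) (l : ℕ) :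
    (1 + π * a) ^ (2 * l + 1) = 1 + (2 * l + 1) * π * a + (2 * l + 1) * l * π ^ 2 * a ^ 2 := by
  induction l with
  | zero => simp
  | succ l ih =>
    rw [show 2 * (l + 1) + 1 = 2 * l + 1 + 2 by ring, pow_add, ih]
    push_cast
    linear_combination ((2 * l + 1) * a ^ 3 + 2 * (2 * l + 1) * l * a ^ 3 +
      (2 * l + 1) * l * π * a ^ 4) * hπ

lemma pow_sq0 (x : R) (hx : x ^ 2 = 0) (m : ℕ) : (1 + x) ^ m = 1 + m * x := by
  induction m with
  | zero => simp
  | succ m ih => rw [pow_succ, ih]; push_cast; linear_combination m * hx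

lemma prod_blocks {M : Type*} [CommMonoid M] (f : ℕ → M) (q m : ℕ) :
    ∏ i ∈ range (q * m), f i = ∏ j ∈ range m, ∏ r ∈ range q, f (q * j + r) := by
  induction m with
  | zero => simp
  | succ m ih => rw [Nat.mul_succ, prod_range_add, ih, prod_range_succ]

lemma sum_blocks {M : Type*} [AddCommMonoid M] (f : ℕ → M) (q m : ℕ) :
    ∑ i ∈ range (q * m), f i = ∑ j ∈ range m, ∑ r ∈ range q, f (q * j + r) := by
  induction m with
  | zero => simp
  | succ m ih => rw [Nat.mul_succ, sum_range_add, ih, sum_range_succ]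

lemma sum_three {M : Type*} [AddCommMonoid M] (f : ℕ → M) (h : ℕ) :
    ∑ r ∈ range (2 * h + 1), f r =
      ∑ r ∈ range h, f r + f h + ∑ k ∈ range h, f (h + 1 + k) := by
  rw [show 2 * h + 1 = (h + 1) + h by ring, sum_range_add, sum_range_succ]

end generic

end Pool.Agent.Work.MP_096b72_nt
end

-- merged part: Pool.Agent.Work.MP_096b72_nt.Binom
section
set_option autoImplicit false

namespace Pool.Agent.Work.MP_096b72_nt

open Finset

variable {p : ℕ} [hpp : Fact p.Prime] {h : ℕ}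

noncomputable def HR (p n : ℕ) : RR p := ∑ i ∈ range n, io p ((i : ℤ) + 1)
noncomputable def OR (p n : ℕ) : RR p := ∑ i ∈ range n, io p (2 * (i : ℤ) + 1)
noncomputable def soR (p h : ℕ) (c : ℕ → RR p) : RR p :=
  ∑ l ∈ range h, (-3) ^ l * (c l * io p (2 * (l : ℤ) + 1))
noncomputable def seR (p h : ℕ) (c : ℕ → RR p) : RR p :=
  ∑ l ∈ range h, (-3) ^ (l + 1) * (c l * io p (2 * (l : ℤ) + 2))

lemma psi_HR (n : ℕ) : psi p (HR p n) = HH (KK p) n := by
  simp [HR, HH, psi_io]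

lemma psi_OR (n : ℕ) : psi p (OR p n) = OO (KK p) n := by
  simp [OR, OO, psi_io]

lemma psi_soR (c : ℕ → RR p) : psi p (soR p h c) = so h (fun l => psi p (c l)) := by
  simp [soR, so, psi_io, map_ofNat]

lemma psi_seR (c : ℕ → RR p) : psi p (seR p h c) = se h (fun l => psi p (c l)) := by
  simp [seR, se, psi_io, map_ofNat]

lemma choose_exp (j : ℕ) (hj : j + 1 < p) :
    ((p.choose (j + 1) : ℕ) : RR p) = (-1) ^ j * p * io p ((j : ℤ) + 1) * (1 - p * HR p j) := by
  induction j with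
  | zero => simp [HR, io]
  | succ j ih =>
    have ih := ih (by omega)
    have a := Nat.choose_succ_right_eq p (j + 1)
    have a' : ((p.choose (j + 1 + 1) : ℕ) : RR p) * ((j : RR p) + 1 + 1) =
        ((p.choose (j + 1) : ℕ) : RR p) * (p - (j + 1)) := by
      have := congrArg (fun z : ℕ => (z : RR p)) a
      simp only [Nat.cast_mul, Nat.cast_sub (show j + 1 ≤ p by omega)] at this
      push_cast at this ⊢
      exact this
    have b1 := io_mul (p := p) (d := (j : ℤ) + 1) (not_dvd_of_lt (by omega) (by omega))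
    have b2 := io_mul (p := p) (d := (j : ℤ) + 1 + 1) (not_dvd_of_lt (by omega) (by omega))
    unfold HR at ih ⊢
    rw [sum_range_succ]
    push_cast at b1 b2 ⊢
    generalize io p ((j : ℤ) + 1 + 1) = u at *
    generalize io p ((j : ℤ) + 1) = v at *
    generalize ∑ i ∈ range j, io p ((i : ℤ) + 1) = H at *
    rw [ih] at a'
    linear_combination u * a' - ((p.choose (j + 1 + 1) : ℕ) : RR p) * b2 -
      (-1) ^ j * p * u * (1 - p * H) * b1 - (-1) ^ j * u * v * H * p3 (p := p)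

omit hpp in
lemma zsq_pow (m : ℕ) :
    (1 + Zsqrtd.sqrtd : ℤ√(-3)) ^ (2 * m + 1) =
      ⟨∑ k ∈ range (m + 1), ((2 * m + 1).choose (2 * k) : ℤ) * (-3) ^ k,
        ∑ k ∈ range (m + 1), ((2 * m + 1).choose (2 * k + 1) : ℤ) * (-3) ^ k⟩ := by
  rw [add_comm, add_pow, show 2 * m + 1 + 1 = 2 * (m + 1) by ring, sum_even_odd]
  have e : ∀ k : ℕ, (Zsqrtd.sqrtd : ℤ√(-3)) ^ (2 * k) = (((-3) ^ k : ℤ) : ℤ√(-3)) := by
    intro k
    rw [pow_mul, sq, Zsqrtd.dmuld]; push_cast; rfl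
  simp only [pow_succ, e, one_pow, mul_one]
  induction (range (m + 1)) using Finset.induction_on with
  | empty => rfl
  | insert a s ha ih =>
    rw [sum_insert ha, sum_insert ha, sum_insert ha, ih]
    generalize ((-3 : ℤ) ^ a) = t
    ext <;> simp <;> ring

omit hpp in
lemma zsq_six (j : ℕ) : (1 + Zsqrtd.sqrtd : ℤ√(-3)) ^ (6 * j) = ((64 ^ j : ℤ) : ℤ√(-3)) := by
  have : (1 + Zsqrtd.sqrtd : ℤ√(-3)) ^ 6 = ((64 : ℤ) : ℤ√(-3)) := by decide
  rw [pow_mul, this]; push_cast; rfl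

omit hpp in
lemma binom_vals (hp : p = 2 * h + 1) (χ : ℤ)
    (hχ : (p % 3 = 1 ∧ χ = 1) ∨ (p % 3 = 2 ∧ χ = -1)) :
    (∑ k ∈ range (h + 1), (p.choose (2 * k) : ℤ) * (-3) ^ k = 2 ^ (2 * h)) ∧
    (∑ k ∈ range (h + 1), (p.choose (2 * k + 1) : ℤ) * (-3) ^ k = χ * 2 ^ (2 * h)) := by
  have a := zsq_pow h
  rw [← hp] at a
  rcases hχ with ⟨h1, rfl⟩ | ⟨h1, rfl⟩
  · obtain ⟨j, hj⟩ : ∃ j, h = 3 * j := ⟨h / 3, by omega⟩
    have e : (1 + Zsqrtd.sqrtd : ℤ√(-3)) ^ p = ((64 ^ j : ℤ) : ℤ√(-3)) * (1 + Zsqrtd.sqrtd) := by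
      rw [show p = 6 * j + 1 by omega, pow_succ, zsq_six]
    have e2 : (2 : ℤ) ^ (2 * h) = 64 ^ j := by
      rw [show 2 * h = 6 * j by omega, pow_mul]; norm_num
    rw [e] at a
    rw [e2]
    generalize ((64 : ℤ) ^ j) = t at a ⊢
    have a1 := congrArg Zsqrtd.re a
    have a2 := congrArg Zsqrtd.im a
    simp at a1 a2
    exact ⟨a1.symm, by rw [one_mul]; exact a2.symm⟩
  · obtain ⟨j, hj⟩ : ∃ j, h = 3 * j + 2 := ⟨h / 3, by omega⟩
    have e5 : (1 + Zsqrtd.sqrtd : ℤ√(-3)) ^ 5 = ⟨16, -16⟩ := by decide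
    have e : (1 + Zsqrtd.sqrtd : ℤ√(-3)) ^ p = ((64 ^ j : ℤ) : ℤ√(-3)) * ⟨16, -16⟩ := by
      rw [show p = 6 * j + 5 by omega, pow_add, zsq_six, e5]
    have e2 : (2 : ℤ) ^ (2 * h) = 64 ^ j * 16 := by
      rw [show 2 * h = 6 * j + 4 by omega, pow_add, pow_mul]; norm_num
    rw [e] at a
    rw [e2]
    generalize ((64 : ℤ) ^ j) = t at a ⊢
    have a1 := congrArg Zsqrtd.re a
    have a2 := congrArg Zsqrtd.im a
    simp at a1 a2
    exact ⟨a1.symm, by linear_combination -a2⟩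

lemma B1 (hp : p = 2 * h + 1) (χ : ℤ) (hχ : (p % 3 = 1 ∧ χ = 1) ∨ (p % 3 = 2 ∧ χ = -1)) :
    (-3 : RR p) ^ h = χ * 2 ^ (2 * h) - p * soR p h (fun _ => 1) +
      p ^ 2 * soR p h (fun l => HR p (2 * l)) := by
  have a := (binom_vals hp χ hχ).2
  rw [sum_range_succ, ← hp, Nat.choose_self] at a
  have b := congrArg (fun z : ℤ => (z : RR p)) a
  simp only [Int.cast_add, Int.cast_sum, Int.cast_mul, Int.cast_natCast, Int.cast_pow,
    Int.cast_neg, Int.cast_ofNat, Nat.cast_one, one_mul] at b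
  have c : ∑ k ∈ range h, ((p.choose (2 * k + 1) : ℕ) : RR p) * (-3) ^ k =
      p * soR p h (fun _ => 1) - p ^ 2 * soR p h (fun l => HR p (2 * l)) := by
    unfold soR
    rw [mul_sum, mul_sum, ← sum_sub_distrib]
    apply sum_congr rfl; intro k hk
    have hk := mem_range.1 hk
    rw [choose_exp (2 * k) (by omega), pow_mul]
    push_cast; ring
  linear_combination b - c

lemma B2 (hp : p = 2 * h + 1) (χ : ℤ) (hχ : (p % 3 = 1 ∧ χ = 1) ∨ (p % 3 = 2 ∧ χ = -1)) :
    (p : RR p) * seR p h (fun _ => 1) = 1 - 2 ^ (2 * h) +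
      p ^ 2 * seR p h (fun l => HR p (2 * l + 1)) := by
  have a := (binom_vals hp χ hχ).1
  rw [sum_range_succ'] at a
  have b := congrArg (fun z : ℤ => (z : RR p)) a
  simp only [Int.cast_add, Int.cast_sum, Int.cast_mul, Int.cast_natCast, Int.cast_pow,
    Int.cast_neg, Int.cast_ofNat, Nat.cast_one, mul_zero, Nat.choose_zero_right, pow_zero,
    mul_one, Int.cast_one] at b
  have c : ∑ k ∈ range h, ((p.choose (2 * (k + 1)) : ℕ) : RR p) * (-3) ^ (k + 1) =
      -(p * seR p h (fun _ => 1)) + p ^ 2 * seR p h (fun l => HR p (2 * l + 1)) := by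
    unfold seR
    rw [mul_sum, mul_sum, ← sum_neg_distrib, ← sum_add_distrib]
    apply sum_congr rfl; intro k hk
    have hk := mem_range.1 hk
    rw [show 2 * (k + 1) = (2 * k + 1) + 1 by ring, choose_exp (2 * k + 1) (by omega),
      pow_succ (-1 : RR p), pow_mul]
    push_cast
    rw [show 2 * (k : ℤ) + 1 + 1 = 2 * k + 2 by ring]; ring
  linear_combination c - b

lemma fermat_two (hp : p = 2 * h + 1) (h3 : 3 < p) : ∃ q : RR p, 2 ^ (2 * h) = 1 + p * q := by
  have h2 := two_ne (K := KK p) h3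
  have f2 : (2 : KK p) ^ p = 2 := by
    have a : ((2 : ℕ) : KK p) ^ p = ((2 : ℕ) : KK p) := by
      rw [← frobenius_def, map_natCast]
    exact_mod_cast a
  have : psi p (2 ^ (2 * h) - 1) = 0 := by
    rw [map_sub, map_pow, map_one, map_ofNat]
    apply mul_left_cancel₀ h2
    have f3 : (2 : KK p) ^ (2 * h + 1) = 2 := by rw [← hp]; exact f2
    linear_combination f3
  obtain ⟨q, hq⟩ := psi_ker this
  exact ⟨q, by linear_combination hq⟩

lemma wolst (hp : p = 2 * h + 1) (h3 : 3 < p) : (p : RR p) * HR p (2 * h) = 0 := by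
  apply cancel_two h3
  have e : 2 * HR p (2 * h) =
      p * ∑ i ∈ range (2 * h), io p ((i : ℤ) + 1) * io p (p - ((i : ℤ) + 1)) := by
    unfold HR
    rw [two_mul]
    nth_rewrite 2 [← sum_range_reflect]
    rw [← sum_add_distrib, mul_sum]
    apply sum_congr rfl; intro i hi
    have hi := mem_range.1 hi
    have e1 : (((2 * h - 1 - i : ℕ) : ℤ) + 1) = p - ((i : ℤ) + 1) := by omega
    rw [e1]
    have b1 := io_mul (p := p) (d := (i : ℤ) + 1) (not_dvd_of_lt (by omega) (by omega))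
    have b2 := io_mul (p := p) (d := p - ((i : ℤ) + 1)) (not_dvd_of_lt (by omega) (by omega))
    push_cast at b1 b2
    linear_combination -io p (p - ((i : ℤ) + 1)) * b1 - io p ((i : ℤ) + 1) * b2
  have z : (p : RR p) ^ 2 * ∑ i ∈ range (2 * h), io p ((i : ℤ) + 1) * io p (p - ((i : ℤ) + 1)) =
      (p : RR p) ^ 2 * 0 := by
    apply psi_eq
    have := H2_full (K := KK p) hp h3
    unfold H2 at this
    simp only [map_sum, map_mul, psi_io, map_zero]
    push_cast
    simp only [CharP.cast_eq_zero, zero_sub, inv_neg, mul_neg, sum_neg_distrib, ← sq, this,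
      neg_zero]
  linear_combination p * e + z

lemma OR_HR (hp : p = 2 * h + 1) (h3 : 3 < p) : 2 * (p : RR p) * OR p h = -(p * HR p h) := by
  have w := wolst hp h3
  have e : 2 * HR p (2 * h) = 2 * OR p h + HR p h := by
    unfold HR OR
    rw [sum_even_odd, mul_sum, mul_sum, ← sum_add_distrib]
    apply sum_congr rfl; intro k hk
    have hk := mem_range.1 hk
    have := io_two_mul (p := p) h3 (d := (k : ℤ) + 1) (not_dvd_of_lt (by omega) (by omega))
    push_cast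
    rw [show 2 * (k : ℤ) + 1 + 1 = 2 * (k + 1) by ring]
    linear_combination this
  linear_combination 2 * w - p * e

omit hpp in
lemma int_prod (h : ℕ) :
    ∏ i ∈ range h, ((2 * h + 1 : ℤ) - ((i : ℤ) + 1)) =
      2 ^ h * ∏ i ∈ range h, ((2 * h + 1 : ℤ) - (2 * (i : ℤ) + 2)) := by
  have a : ∏ i ∈ range h, ((2 * h + 1 : ℤ) - ((i : ℤ) + 1)) =
      ∏ i ∈ range h, (((h + i : ℕ) : ℤ) + 1) := by
    rw [← prod_range_reflect]
    apply prod_congr rfl; intro i hi
    have := mem_range.1 hi; omega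
  have b : ∏ i ∈ range h, ((2 * h + 1 : ℤ) - (2 * (i : ℤ) + 2)) =
      ∏ i ∈ range h, (((2 * i : ℕ) : ℤ) + 1) := by
    rw [← prod_range_reflect]
    apply prod_congr rfl; intro i hi
    have := mem_range.1 hi; omega
  have c := prod_even_odd (fun j : ℕ => (j : ℤ) + 1) h
  rw [two_mul h, prod_range_add, prod_mul_distrib] at c
  have d : ∏ i ∈ range h, (((2 * i + 1 : ℕ) : ℤ) + 1) = 2 ^ h * ∏ i ∈ range h, ((i : ℤ) + 1) := by
    rw [← card_range h, ← prod_const, card_range, ← prod_mul_distrib]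
    apply prod_congr rfl; intro i _; push_cast; ring
  have n0 : ∏ i ∈ range h, ((i : ℤ) + 1) ≠ 0 := prod_ne_zero_iff.2 fun i _ => by omega
  rw [a, b]
  apply mul_left_cancel₀ n0
  rw [c, d]; ring

lemma two_pow_prod (hp : p = 2 * h + 1) :
    (2 : RR p) ^ (2 * h) * ∏ i ∈ range h, (1 + p * (-io p (2 * (i : ℤ) + 2))) =
      ∏ i ∈ range h, (1 + p * (-io p ((i : ℤ) + 1))) := by
  have a := congrArg (fun z : ℤ => (z : RR p)) (int_prod h)
  have hp' : (2 * h + 1 : ℤ) = p := by omega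
  rw [hp'] at a
  simp only [Int.cast_prod, Int.cast_mul, Int.cast_pow, Int.cast_ofNat] at a
  have U : IsUnit (∏ i ∈ range h, (((-((i : ℤ) + 1) : ℤ)) : RR p)) := by
    apply IsUnit.prod_iff.2
    intro i hi
    have hi := mem_range.1 hi
    apply isUnit_int
    rw [dvd_neg]
    exact not_dvd_of_lt (by omega) (by omega)
  apply U.mul_left_cancel
  have e1 : ∏ i ∈ range h, (((p : ℤ) - ((i : ℤ) + 1) : ℤ) : RR p) =
      (∏ i ∈ range h, (((-((i : ℤ) + 1) : ℤ)) : RR p)) *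
        ∏ i ∈ range h, (1 + p * (-io p ((i : ℤ) + 1))) := by
    rw [← prod_mul_distrib]
    apply prod_congr rfl; intro i hi
    have hi := mem_range.1 hi
    have b1 := io_mul (p := p) (d := (i : ℤ) + 1) (not_dvd_of_lt (by omega) (by omega))
    push_cast at b1 ⊢
    linear_combination -p * b1
  have e2 : ∏ i ∈ range h, (((p : ℤ) - (2 * (i : ℤ) + 2) : ℤ) : RR p) =
      2 ^ h * (∏ i ∈ range h, (((-((i : ℤ) + 1) : ℤ)) : RR p)) *
        ∏ i ∈ range h, (1 + p * (-io p (2 * (i : ℤ) + 2))) := by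
    rw [← card_range h, ← prod_const, card_range, ← prod_mul_distrib, ← prod_mul_distrib]
    apply prod_congr rfl; intro i hi
    have hi := mem_range.1 hi
    have b1 := io_mul (p := p) (d := 2 * (i : ℤ) + 2) (not_dvd_of_lt (by omega) (by omega))
    push_cast at b1 ⊢
    linear_combination -p * b1
  rw [e1, e2] at a
  rw [a, two_mul h, pow_add]; ring

lemma prod2' (a : ℕ → RR p) (r : ℕ) (ha : ∑ j ∈ range r, (psi p (a j)) ^ 2 = 0) :
    2 * ∏ j ∈ range r, (1 + p * a j) =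
      2 + 2 * p * ∑ j ∈ range r, a j + (p : RR p) ^ 2 * (∑ j ∈ range r, a j) ^ 2 := by
  have z : (p : RR p) ^ 2 * ∑ j ∈ range r, a j ^ 2 = (p : RR p) ^ 2 * 0 := by
    apply psi_eq
    simp only [map_sum, map_pow, ha, map_zero]
  rw [prod2 _ p3]
  linear_combination -z

lemma HR_half (hp : p = 2 * h + 1) (h3 : 3 < p) (q : RR p) (hq : 2 ^ (2 * h) = 1 + p * q) :
    (p : RR p) * HR p h = -2 * p * q + p ^ 2 * q ^ 2 := by
  have h2 := two_ne (K := KK p) h3
  have k2 := H2_half (K := KK p) hp h3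
  unfold H2 at k2
  have a := two_pow_prod hp
  have b1 := prod2' (fun i => -io p (2 * (i : ℤ) + 2)) h (by
    simp only [map_neg, psi_io, neg_sq]
    push_cast
    simp only [inv_two_mul h2, div_pow, ← sum_div, k2, zero_div])
  have b2 := prod2' (fun i => -io p ((i : ℤ) + 1)) h (by
    simp only [map_neg, psi_io, neg_sq]
    push_cast
    exact k2)
  have c1 : 2 * ∑ i ∈ range h, -io p (2 * (i : ℤ) + 2) = -HR p h := by
    unfold HR
    rw [mul_sum, ← sum_neg_distrib]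
    apply sum_congr rfl; intro k hk
    have hk := mem_range.1 hk
    have := io_two_mul (p := p) h3 (d := (k : ℤ) + 1) (not_dvd_of_lt (by omega) (by omega))
    rw [show 2 * (k : ℤ) + 2 = 2 * (k + 1) by ring]
    linear_combination -this
  have c2 : ∑ i ∈ range h, -io p ((i : ℤ) + 1) = -HR p h := by
    unfold HR; rw [sum_neg_distrib]
  rw [c2, ← c1] at b2
  rw [hq] at a
  generalize ∑ i ∈ range h, -io p (2 * (i : ℤ) + 2) = S at *
  generalize ∏ i ∈ range h, (1 + (p : RR p) * (-io p (2 * (i : ℤ) + 2))) = P1 at *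
  generalize ∏ i ∈ range h, (1 + (p : RR p) * (-io p ((i : ℤ) + 1))) = P2 at *
  have t3 := p3 (p := p)
  have d : 2 * p * S = 2 * p * q + (p : RR p) ^ 2 * (2 * q * S - 3 * S ^ 2) := by
    linear_combination -2 * a + (1 + p * q) * b1 - b2 + q * S ^ 2 * t3
  have d2 : (p : RR p) ^ 2 * S = p ^ 2 * q := by
    apply cancel_two h3
    linear_combination p * d + (2 * q * S - 3 * S ^ 2) * t3
  linear_combination p * c1 - d + (3 * S + q) * d2

end Pool.Agent.Work.MP_096b72_nt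
end

-- merged part: Pool.Agent.Work.MP_096b72_nt.WZ
section
set_option autoImplicit false

namespace Pool.Agent.Work.MP_096b72_nt

open Finset

variable {F : Type*} [Field F] [CharZero F]

/-- The summand without the linear factor. -/
def tt (F : Type*) [Field F] (n : ℕ) : F :=
  (((Nat.choose (2 * n) n : ℕ) : F) ^ 2 * ((Nat.choose (3 * n) n : ℕ) : F)) / (-192 : F) ^ n

def ff (F : Type*) [Field F] (N i : ℕ) : F := (2 * i + 1 + 2 * N : F) / (2 * i + 1 - 2 * N : F)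

def gg (F : Type*) [Field F] (N i : ℕ) : F := (i - N : F) / (i + 2 * N : F)

def AA (F : Type*) [Field F] (N l : ℕ) : F := ∏ i ∈ range l, (ff F N i * gg F N (i + 1))

def vv (F : Type*) [Field F] (N l : ℕ) : F := (N : F) / (2 * N - (2 * l + 1) : F)

def kf (F : Type*) [Field F] (N i : ℕ) : F := (1 + (N : F) / i) ^ 2 * (1 + 2 * ((N : F) / i))

def kk (F : Type*) [Field F] (N : ℕ) : F := ∏ i ∈ range N, kf F N i

lemma odd_ne (a b : ℕ) : (2 * a + 1 - 2 * b : F) ≠ 0 := by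
  have h : ((2 * (a : ℤ) + 1 - 2 * b : ℤ) : F) ≠ 0 := by
    rw [Int.cast_ne_zero]; omega
  push_cast at h; exact h

lemma odd_ne' (a b : ℕ) : (2 * a - 1 - 2 * b : F) ≠ 0 := by
  have h : ((2 * (a : ℤ) - 1 - 2 * b : ℤ) : F) ≠ 0 := by
    rw [Int.cast_ne_zero]; omega
  push_cast at h; exact h

lemma pos_ne (a : ℕ) (ha : 0 < a) : ((a : ℕ) : F) ≠ 0 := by
  rw [Nat.cast_ne_zero]; omega

lemma tt_succ (n : ℕ) :
    tt F (n + 1) = tt F n * (-((2 * n + 1) * (3 * n + 1) * (3 * n + 2)) / (32 * (n + 1) ^ 3)) := by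
  unfold tt
  have e1 : ∀ m : ℕ, ((Nat.choose (2 * m) m : ℕ) : F) =
      ((2 * m).factorial : F) / ((m.factorial : F) * (m.factorial : F)) := by
    intro m
    rw [Nat.cast_choose F (by omega : m ≤ 2 * m)]
    congr 4; omega
  have e2 : ∀ m : ℕ, ((Nat.choose (3 * m) m : ℕ) : F) =
      ((3 * m).factorial : F) / ((m.factorial : F) * ((2 * m).factorial : F)) := by
    intro m
    rw [Nat.cast_choose F (by omega : m ≤ 3 * m)]
    congr 4; omega
  rw [e1, e1, e2, e2]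
  have h2 : 2 * (n + 1) = 2 * n + 1 + 1 := by ring
  have h3 : 3 * (n + 1) = 3 * n + 1 + 1 + 1 := by ring
  rw [h2, h3]
  simp only [Nat.factorial_succ]
  have a1 : (n.factorial : F) ≠ 0 := pos_ne _ (Nat.factorial_pos _)
  have a2 : ((2 * n).factorial : F) ≠ 0 := pos_ne _ (Nat.factorial_pos _)
  have a3 : ((n : F) + 1) ≠ 0 := by exact_mod_cast pos_ne (F := F) (n + 1) (by omega)
  have a4 : (2 * (n : F) + 1) ≠ 0 := by exact_mod_cast pos_ne (F := F) (2 * n + 1) (by omega)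
  have a5 : (2 * (n : F) + 1 + 1) ≠ 0 := by
    exact_mod_cast pos_ne (F := F) (2 * n + 1 + 1) (by omega)
  have a6 : (-192 : F) ^ n ≠ 0 := pow_ne_zero _ (by norm_num)
  push_cast
  rw [pow_succ]
  field_simp
  ring

lemma choose_prod (m n : ℕ) :
    ((Nat.choose (m + n) n : ℕ) : F) = ∏ i ∈ range (n + 1), (1 + (m : F) / i) := by
  induction n with
  | zero => simp
  | succ n ih =>
    rw [prod_range_succ, ← ih]
    have h := Nat.add_one_mul_choose_eq (m + n) n
    have h' : ((m + n + 1 : ℕ) : F) * ((Nat.choose (m + n) n : ℕ) : F) =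
        ((Nat.choose (m + n + 1) (n + 1) : ℕ) : F) * ((n + 1 : ℕ) : F) := by exact_mod_cast h
    have a3 : ((n + 1 : ℕ) : F) ≠ 0 := pos_ne _ (by omega)
    rw [← add_assoc]
    field_simp
    push_cast at h' ⊢
    linear_combination -h'

lemma tt_eq_kk (N : ℕ) (hN : 0 < N) : tt F N = 12 * kk F N / (-192 : F) ^ N := by
  unfold tt kk kf
  have a : (N : F) ≠ 0 := pos_ne _ hN
  have e1 : ((Nat.choose (2 * N) N : ℕ) : F) = 2 * ∏ i ∈ range N, (1 + (N : F) / i) := by
    rw [two_mul, choose_prod, prod_range_succ, div_self a]; ring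
  have e2 : ((Nat.choose (3 * N) N : ℕ) : F) = 3 * ∏ i ∈ range N, (1 + 2 * ((N : F) / i)) := by
    rw [show 3 * N = 2 * N + N by ring, choose_prod, prod_range_succ]
    push_cast
    have : (1 + 2 * (N : F) / N) = 3 := by field_simp; norm_num
    rw [this, mul_comm]
    congr 1
    apply prod_congr rfl; intro i _; ring
  rw [e1, e2, prod_mul_distrib, prod_pow]
  ring

lemma AA_shift (N : ℕ) (hN : 0 < N) (l : ℕ) :
    AA F N l = AA F (N + 1) l *
      ((1 + 2 * N) * (l - N) * (-1 - 2 * N) * (l + 2 * N + 1) * (l + 2 * N + 2) /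
        ((2 * l + 1 + 2 * N) * (-N) * (2 * l - 1 - 2 * N) * (2 * N + 1) * (2 * N + 2))) := by
  have a : (N : F) ≠ 0 := pos_ne _ hN
  have a1 : (2 * (N : F) + 1) ≠ 0 := by exact_mod_cast pos_ne (F := F) (2 * N + 1) (by omega)
  have a2 : (2 * (N : F) + 2) ≠ 0 := by exact_mod_cast pos_ne (F := F) (2 * N + 2) (by omega)
  induction l with
  | zero =>
    have a3 : (1 + 2 * (N : F)) ≠ 0 := by rw [add_comm]; exact a1
    have a4 : (-1 - 2 * (N : F)) ≠ 0 := by
      intro h; apply a1; linear_combination -h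
    simp only [AA, range_zero, prod_empty, Nat.cast_zero, mul_zero, zero_add, zero_sub, one_mul]
    field_simp
  | succ l ih =>
    unfold AA at ih ⊢
    rw [prod_range_succ, prod_range_succ, ih]
    unfold ff gg
    have b1 : (2 * (l : F) + 1 - 2 * N) ≠ 0 := odd_ne l N
    have b2 : (2 * (l : F) - 1 - 2 * N) ≠ 0 := odd_ne' l N
    have b3 : (2 * (l : F) + 1 + 2 * N) ≠ 0 := by
      exact_mod_cast pos_ne (F := F) (2 * l + 1 + 2 * N) (by omega)
    have b4 : (2 * (l : F) + 3 + 2 * N) ≠ 0 := by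
      exact_mod_cast pos_ne (F := F) (2 * l + 3 + 2 * N) (by omega)
    have b5 : ((l : F) + 1 + 2 * N) ≠ 0 := by
      exact_mod_cast pos_ne (F := F) (l + 1 + 2 * N) (by omega)
    have b6 : ((l : F) + 3 + 2 * N) ≠ 0 := by
      exact_mod_cast pos_ne (F := F) (l + 3 + 2 * N) (by omega)
    push_cast
    have c1 : (2 * (l : F) + 1 - 2 * (N + 1)) = 2 * l - 1 - 2 * N := by ring
    have c2 : ((l : F) + 1 + 2 * (N + 1)) = l + 3 + 2 * N := by ring
    have c3 : (2 * ((l : F) + 1) + 1 + 2 * N) = 2 * l + 3 + 2 * N := by ring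
    have c4 : (2 * ((l : F) + 1) - 1 - 2 * N) = 2 * l + 1 - 2 * N := by ring
    rw [c1, c2, c3, c4]
    field_simp
    ring

/-- The WZ certificate. -/
def gam (F : Type*) [Field F] (N l : ℕ) : F :=
  (20 * (N : F) ^ 4 + 44 * N ^ 3 + 33 * N ^ 2 + 10 * N + 1 +
    l * (14 * N ^ 3 + 18 * N ^ 2 + 13 / 2 * N + 1 / 2) + l ^ 2 * (2 * N ^ 2 + N)) /
    ((2 * l - 1 - 2 * N) * (2 * l + 1 + 2 * N) * (N + 1))

def tau (F : Type*) [Field F] (N l : ℕ) : F :=
  -16 * N * tt F N * ((-3) ^ l * vv F N l * AA F N l)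

def GG (F : Type*) [Field F] (N l : ℕ) : F := tt F N * ((-3) ^ l * AA F (N + 1) l) * gam F N l

lemma wz_step (N : ℕ) (hN : 0 < N) (l : ℕ) :
    tau F (N + 1) l - tau F N l = GG F N (l + 1) - GG F N l := by
  unfold tau GG
  rw [tt_succ, AA_shift N hN l]
  have e : AA F (N + 1) (l + 1) = AA F (N + 1) l * (ff F (N + 1) l * gg F (N + 1) (l + 1)) := by
    unfold AA; rw [prod_range_succ]
  rw [e]
  unfold ff gg vv gam
  have a : (N : F) ≠ 0 := pos_ne _ hN
  have a0 : ((N : F) + 1) ≠ 0 := by exact_mod_cast pos_ne (F := F) (N + 1) (by omega)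
  have a1 : (2 * (N : F) + 1) ≠ 0 := by exact_mod_cast pos_ne (F := F) (2 * N + 1) (by omega)
  have a2 : (2 * (N : F) + 2) ≠ 0 := by exact_mod_cast pos_ne (F := F) (2 * N + 2) (by omega)
  have b1 : (2 * (l : F) + 1 - 2 * N) ≠ 0 := odd_ne l N
  have b2 : (2 * (l : F) - 1 - 2 * N) ≠ 0 := odd_ne' l N
  have b3 : (2 * (l : F) + 1 + 2 * N) ≠ 0 := by
    exact_mod_cast pos_ne (F := F) (2 * l + 1 + 2 * N) (by omega)
  have b4 : (2 * (l : F) + 3 + 2 * N) ≠ 0 := by
    exact_mod_cast pos_ne (F := F) (2 * l + 3 + 2 * N) (by omega)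
  have b6 : ((l : F) + 3 + 2 * N) ≠ 0 := by
    exact_mod_cast pos_ne (F := F) (l + 3 + 2 * N) (by omega)
  push_cast
  have c1 : (2 * (l : F) + 1 - 2 * (N + 1)) = 2 * l - 1 - 2 * N := by ring
  have c2 : ((l : F) + 1 + 2 * (N + 1)) = l + 3 + 2 * N := by ring
  have c3 : (2 * ((l : F) + 1) + 1 + 2 * N) = 2 * l + 3 + 2 * N := by ring
  have c4 : (2 * ((l : F) + 1) - 1 - 2 * N) = 2 * l + 1 - 2 * N := by ring
  have c5 : (2 * ((N : F) + 1) - (2 * l + 1)) = -(2 * l - 1 - 2 * N) := by ring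
  have c6 : (2 * (N : F) - (2 * l + 1)) = -(2 * l + 1 - 2 * N) := by ring
  rw [c1, c2, c3, c4, c5, c6, pow_succ]
  clear c1 c2 c3 c4 c5 c6 e
  generalize hd1 : (2 * (l : F) + 1 - 2 * N) = d1 at b1 ⊢
  generalize hd2 : (2 * (l : F) - 1 - 2 * N) = d2 at b2 ⊢
  generalize hd3 : (2 * (l : F) + 1 + 2 * N) = d3 at b3 ⊢
  generalize hd4 : (2 * (l : F) + 3 + 2 * N) = d4 at b4 ⊢
  generalize hd6 : ((l : F) + 3 + 2 * N) = d6 at b6 ⊢
  generalize hd7 : (2 * (N : F) + 1) = d7 at a1 ⊢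
  generalize hd8 : (2 * (N : F) + 2) = d8 at a2 ⊢
  field_simp
  subst hd1 hd2 hd3 hd4 hd6 hd7 hd8
  ring

omit [CharZero F] in
lemma AA_self (N : ℕ) (hN : 0 < N) : AA F N N = 0 := by
  obtain ⟨n, rfl⟩ : ∃ n, N = n + 1 := ⟨N - 1, by omega⟩
  unfold AA
  rw [prod_range_succ]
  simp [gg]

lemma wz_sum (N : ℕ) (hN : 0 < N) :
    ∑ k ∈ range N, (5 * (k : F) + 1) * tt F k = ∑ l ∈ range N, tau F N l := by
  induction N, hN using Nat.le_induction with
  | base =>
    simp [tau, tt, vv, AA]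
    norm_num [Nat.choose]
  | succ N hN ih =>
    rw [sum_range_succ, ih]
    have h1 : ∑ l ∈ range (N + 1), (tau F (N + 1) l - tau F N l) =
        GG F N (N + 1) - GG F N 0 := by
      rw [← sum_range_sub (fun l => GG F N l)]
      exact sum_congr rfl fun l _ => wz_step N hN l
    rw [sum_sub_distrib, sum_range_succ (fun l => tau F N l)] at h1
    have h2 : tau F N N = 0 := by simp [tau, AA_self N hN]
    have h3 : GG F N (N + 1) = 0 := by simp [GG, AA_self (N + 1) (by omega)]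
    have h4 : GG F N 0 = -((5 * (N : F) + 1) * tt F N) := by
      have a0 : ((N : F) + 1) ≠ 0 := by exact_mod_cast pos_ne (F := F) (N + 1) (by omega)
      have a1 : (1 + 2 * (N : F)) ≠ 0 := by exact_mod_cast pos_ne (F := F) (1 + 2 * N) (by omega)
      have a4 : (-1 - 2 * (N : F)) ≠ 0 := by
        intro h; apply a1; linear_combination -h
      simp only [GG, AA, gam, range_zero, prod_empty, Nat.cast_zero, mul_zero, zero_add, zero_sub,
        pow_zero, mul_one, zero_mul, add_zero]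
      generalize hd1 : (1 + 2 * (N : F)) = d1 at a1 ⊢
      generalize hd2 : (-1 - 2 * (N : F)) = d2 at a4 ⊢
      field_simp
      subst hd1 hd2
      ring
    rw [h2, h3, h4] at h1
    linear_combination -h1

/-- The finite identity behind the congruence. -/
theorem key_identity (n : ℕ) :
    (1 / ((n + 1 : ℕ) : F)) * ∑ k ∈ range (n + 1), (5 * (k : F) + 1) * tt F k =
      (1 / (-192 : F)) ^ n * kk F (n + 1) *
        ∑ l ∈ range (n + 1), (-3) ^ l * vv F (n + 1) l * AA F (n + 1) l := by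
  rw [wz_sum (n + 1) (by omega)]
  unfold tau
  rw [← mul_sum, tt_eq_kk (n + 1) (by omega)]
  have a : ((n + 1 : ℕ) : F) ≠ 0 := pos_ne _ (by omega)
  have a6 : (-192 : F) ^ n ≠ 0 := pow_ne_zero _ (by norm_num)
  rw [pow_succ, one_div_pow]
  field_simp
  ring

end Pool.Agent.Work.MP_096b72_nt
end

-- merged part: Pool.Agent.Work.MP_096b72_nt.Phi
section
set_option autoImplicit false

namespace Pool.Agent.Work.MP_096b72_nt

open Finset

variable {p : ℕ} [hpp : Fact p.Prime]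

def In (x : ℚ_[p]) : Prop := ‖x‖ ≤ 1

open Classical in
noncomputable def phi (x : ℚ_[p]) : RR p :=
  if h : ‖x‖ ≤ 1 then PadicInt.toZModPow 3 (⟨x, h⟩ : ℤ_[p]) else 0

lemma In_iff {x : ℚ_[p]} : In x ↔ ∃ z : ℤ_[p], x = z :=
  ⟨fun h => ⟨⟨x, h⟩, rfl⟩, fun ⟨z, hz⟩ => hz ▸ z.2⟩

lemma phi_coe (z : ℤ_[p]) : phi (z : ℚ_[p]) = PadicInt.toZModPow 3 z := by
  unfold phi; rw [dif_pos z.2]; rfl

lemma In_int (a : ℤ) : In (a : ℚ_[p]) := In_iff.2 ⟨a, by simp⟩
lemma In_nat (a : ℕ) : In (a : ℚ_[p]) := In_iff.2 ⟨a, by simp⟩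
lemma In_one : In (1 : ℚ_[p]) := In_iff.2 ⟨1, by simp⟩
lemma In_zero : In (0 : ℚ_[p]) := In_iff.2 ⟨0, by simp⟩

lemma In.add {x y : ℚ_[p]} (hx : In x) (hy : In y) : In (x + y) := by
  obtain ⟨a, rfl⟩ := In_iff.1 hx; obtain ⟨b, rfl⟩ := In_iff.1 hy
  exact In_iff.2 ⟨a + b, by simp⟩
lemma In.sub {x y : ℚ_[p]} (hx : In x) (hy : In y) : In (x - y) := by
  obtain ⟨a, rfl⟩ := In_iff.1 hx; obtain ⟨b, rfl⟩ := In_iff.1 hy
  exact In_iff.2 ⟨a - b, by simp⟩
lemma In.mul {x y : ℚ_[p]} (hx : In x) (hy : In y) : In (x * y) := by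
  obtain ⟨a, rfl⟩ := In_iff.1 hx; obtain ⟨b, rfl⟩ := In_iff.1 hy
  exact In_iff.2 ⟨a * b, by simp⟩
lemma In.pow {x : ℚ_[p]} (hx : In x) (n : ℕ) : In (x ^ n) := by
  obtain ⟨a, rfl⟩ := In_iff.1 hx
  exact In_iff.2 ⟨a ^ n, by simp⟩

lemma phi_int (a : ℤ) : phi (a : ℚ_[p]) = (a : RR p) := by
  rw [← PadicInt.coe_intCast, phi_coe, map_intCast]
lemma phi_nat (a : ℕ) : phi (a : ℚ_[p]) = (a : RR p) := by
  rw [← PadicInt.coe_natCast, phi_coe, map_natCast]
lemma phi_one : phi (1 : ℚ_[p]) = 1 := by simpa using phi_nat (p := p) 1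
lemma phi_zero : phi (0 : ℚ_[p]) = 0 := by simpa using phi_nat (p := p) 0

lemma phi_add {x y : ℚ_[p]} (hx : In x) (hy : In y) : phi (x + y) = phi x + phi y := by
  obtain ⟨a, rfl⟩ := In_iff.1 hx; obtain ⟨b, rfl⟩ := In_iff.1 hy
  rw [← PadicInt.coe_add, phi_coe, phi_coe, phi_coe, map_add]
lemma phi_sub {x y : ℚ_[p]} (hx : In x) (hy : In y) : phi (x - y) = phi x - phi y := by
  obtain ⟨a, rfl⟩ := In_iff.1 hx; obtain ⟨b, rfl⟩ := In_iff.1 hy
  rw [← PadicInt.coe_sub, phi_coe, phi_coe, phi_coe, map_sub]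
lemma phi_mul {x y : ℚ_[p]} (hx : In x) (hy : In y) : phi (x * y) = phi x * phi y := by
  obtain ⟨a, rfl⟩ := In_iff.1 hx; obtain ⟨b, rfl⟩ := In_iff.1 hy
  rw [← PadicInt.coe_mul, phi_coe, phi_coe, phi_coe, map_mul]
lemma phi_pow {x : ℚ_[p]} (hx : In x) (n : ℕ) : phi (x ^ n) = phi x ^ n := by
  obtain ⟨a, rfl⟩ := In_iff.1 hx
  rw [← PadicInt.coe_pow, phi_coe, phi_coe, map_pow]

lemma In_phi_sum (f : ℕ → ℚ_[p]) (n : ℕ) (H : ∀ i < n, In (f i)) :
    In (∑ i ∈ range n, f i) ∧ phi (∑ i ∈ range n, f i) = ∑ i ∈ range n, phi (f i) := by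
  induction n with
  | zero => simp [In_zero, phi_zero]
  | succ n ih =>
    obtain ⟨a, b⟩ := ih (fun i hi => H i (by omega))
    rw [sum_range_succ, sum_range_succ, phi_add a (H n (by omega)), b]
    exact ⟨a.add (H n (by omega)), rfl⟩

lemma In_phi_prod (f : ℕ → ℚ_[p]) (n : ℕ) (H : ∀ i < n, In (f i)) :
    In (∏ i ∈ range n, f i) ∧ phi (∏ i ∈ range n, f i) = ∏ i ∈ range n, phi (f i) := by
  induction n with
  | zero => simp [In_one, phi_one]
  | succ n ih =>
    obtain ⟨a, b⟩ := ih (fun i hi => H i (by omega))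
    rw [prod_range_succ, prod_range_succ, phi_mul a (H n (by omega)), b]
    exact ⟨a.mul (H n (by omega)), rfl⟩

lemma In_inv {d : ℤ} (hd : ¬ (p : ℤ) ∣ d) : In ((d : ℚ_[p])⁻¹) := by
  have h1 : ‖(d : ℚ_[p])‖ = 1 := by
    have a := Padic.norm_int_le_one (p := p) d
    have b := (Padic.norm_intCast_lt_one_iff (p := p) (k := d)).not.2 hd
    linarith [not_lt.1 b]
  unfold In
  rw [norm_inv, h1, inv_one]

lemma phi_inv {d : ℤ} (hd : ¬ (p : ℤ) ∣ d) : phi ((d : ℚ_[p])⁻¹) = io p d := by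
  have d0 : (d : ℚ_[p]) ≠ 0 := by
    rw [Int.cast_ne_zero]; rintro rfl; exact hd (dvd_zero _)
  have a := phi_mul (In_int d) (In_inv hd)
  rw [mul_inv_cancel₀ d0, phi_one, phi_int] at a
  have b := io_mul hd
  linear_combination phi ((d : ℚ_[p])⁻¹) * (-b) - io p d * a

lemma In_div (a : ℤ) {d : ℤ} (hd : ¬ (p : ℤ) ∣ d) : In ((a : ℚ_[p]) / (d : ℚ_[p])) := by
  rw [div_eq_mul_inv]; exact (In_int a).mul (In_inv hd)

lemma phi_div (a : ℤ) {d : ℤ} (hd : ¬ (p : ℤ) ∣ d) :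
    phi ((a : ℚ_[p]) / (d : ℚ_[p])) = (a : RR p) * io p d := by
  rw [div_eq_mul_inv, phi_mul (In_int a) (In_inv hd), phi_int, phi_inv hd]

lemma In_pow_div (a : ℕ) (d : ℤ) (hd : |d| < (p : ℤ) ^ (a + 1)) :
    In (((p ^ a : ℕ) : ℚ_[p]) / (d : ℚ_[p])) := by
  by_cases d0 : d = 0
  · subst d0; simp [In_zero]
  have h1 : ¬ ‖(d : ℚ_[p])‖ ≤ (p : ℝ) ^ (-((a + 1 : ℕ) : ℤ)) := by
    rw [Padic.norm_int_le_pow_iff_dvd]
    intro h
    have := Int.le_of_dvd (abs_pos.2 d0) ((dvd_abs _ _).2 h)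
    omega
  have h2 : (p : ℝ) ^ (-(a : ℤ)) ≤ ‖(d : ℚ_[p])‖ := by
    by_contra h
    apply h1
    rw [Padic.norm_le_pow_iff_norm_lt_pow_add_one]
    push_cast
    rw [show -((a : ℤ) + 1) + 1 = -a by ring]
    exact not_le.1 h
  have d0' : 0 < ‖(d : ℚ_[p])‖ := norm_pos_iff.2 (Int.cast_ne_zero.2 d0)
  unfold In
  rw [norm_div, div_le_one d0']
  push_cast
  rw [Padic.norm_p_pow]
  exact h2

lemma phi_eq {x y : ℚ_[p]} (hx : In x) (hy : In y) (h : phi x = phi y) :
    ‖x - y‖ ≤ (p : ℝ) ^ (-(3 : ℤ)) := by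
  obtain ⟨a, rfl⟩ := In_iff.1 hx; obtain ⟨b, rfl⟩ := In_iff.1 hy
  rw [phi_coe, phi_coe, ← sub_eq_zero, ← map_sub, ← RingHom.mem_ker, PadicInt.ker_toZModPow,
    ← PadicInt.norm_le_pow_iff_mem_span_pow] at h
  rw [← PadicInt.coe_sub]
  exact_mod_cast h

/-! ### The factors -/

lemma ff_eq (N i : ℕ) : ff ℚ_[p] N i = 1 - 4 * vv ℚ_[p] N i := by
  unfold ff vv
  have b1 : (2 * (i : ℚ_[p]) + 1 - 2 * N) ≠ 0 := odd_ne i N
  have c6 : (2 * (N : ℚ_[p]) - (2 * i + 1)) = -(2 * i + 1 - 2 * N) := by ring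
  rw [c6]
  generalize hd : (2 * (i : ℚ_[p]) + 1 - 2 * N) = d at b1
  field_simp
  subst hd; ring

lemma gg_eq (N i : ℕ) (hi : 0 < i) :
    gg ℚ_[p] N i = 1 - 3 * ((N : ℚ_[p]) / ((i + 2 * N : ℤ) : ℚ_[p])) := by
  unfold gg
  have b1 : ((i : ℚ_[p]) + 2 * N) ≠ 0 := by
    exact_mod_cast pos_ne (F := ℚ_[p]) (i + 2 * N) (by omega)
  push_cast
  generalize hd : ((i : ℚ_[p]) + 2 * N) = d at b1
  field_simp
  subst hd; ring

lemma vv_eq (N l : ℕ) :
    vv ℚ_[p] N l = (N : ℚ_[p]) / ((2 * N - (2 * l + 1) : ℤ) : ℚ_[p]) := by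
  unfold vv; push_cast; rfl

lemma kf_eq (N i : ℕ) :
    kf ℚ_[p] N i = (1 + (N : ℚ_[p]) / ((i : ℤ) : ℚ_[p])) ^ 2 *
      (1 + 2 * ((N : ℚ_[p]) / ((i : ℤ) : ℚ_[p]))) := by
  unfold kf; push_cast; rfl

lemma In_ofNat2 : In (2 : ℚ_[p]) := by exact_mod_cast In_nat (p := p) 2
lemma In_ofNat3 : In (3 : ℚ_[p]) := by exact_mod_cast In_nat (p := p) 3
lemma In_ofNat4 : In (4 : ℚ_[p]) := by exact_mod_cast In_nat (p := p) 4
lemma phi_ofNat2 : phi (2 : ℚ_[p]) = 2 := by exact_mod_cast phi_nat (p := p) 2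
lemma phi_ofNat3 : phi (3 : ℚ_[p]) = 3 := by exact_mod_cast phi_nat (p := p) 3
lemma phi_ofNat4 : phi (4 : ℚ_[p]) = 4 := by exact_mod_cast phi_nat (p := p) 4

noncomputable def VV (p : ℕ) [Fact p.Prime] (N l : ℕ) : RR p := phi (vv ℚ_[p] N l)
noncomputable def FF (p : ℕ) [Fact p.Prime] (N l : ℕ) : RR p := phi (ff ℚ_[p] N l)
noncomputable def GR (p : ℕ) [Fact p.Prime] (N l : ℕ) : RR p := phi (gg ℚ_[p] N l)
noncomputable def KF (p : ℕ) [Fact p.Prime] (N l : ℕ) : RR p := phi (kf ℚ_[p] N l)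

lemma ff_of_In {N l : ℕ} (h : In (vv ℚ_[p] N l)) :
    In (ff ℚ_[p] N l) ∧ FF p N l = 1 - 4 * VV p N l := by
  unfold FF VV
  rw [ff_eq, phi_sub In_one (In_ofNat4.mul h), phi_mul In_ofNat4 h, phi_one, phi_ofNat4]
  exact ⟨In_one.sub (In_ofNat4.mul h), rfl⟩

lemma gg_of_In {N i : ℕ} (hi : 0 < i) (h : In ((N : ℚ_[p]) / ((i + 2 * N : ℤ) : ℚ_[p]))) :
    In (gg ℚ_[p] N i) ∧ GR p N i = 1 - 3 * phi ((N : ℚ_[p]) / ((i + 2 * N : ℤ) : ℚ_[p])) := by
  unfold GR
  rw [gg_eq N i hi, phi_sub In_one (In_ofNat3.mul h), phi_mul In_ofNat3 h, phi_one, phi_ofNat3]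
  exact ⟨In_one.sub (In_ofNat3.mul h), rfl⟩

lemma kf_of_In {N i : ℕ} (h : In ((N : ℚ_[p]) / ((i : ℤ) : ℚ_[p]))) :
    In (kf ℚ_[p] N i) ∧ KF p N i = (1 + phi ((N : ℚ_[p]) / ((i : ℤ) : ℚ_[p]))) ^ 2 *
      (1 + 2 * phi ((N : ℚ_[p]) / ((i : ℤ) : ℚ_[p]))) := by
  unfold KF
  have a := (In_one.add h).pow 2
  have b := In_one.add (In_ofNat2.mul h)
  rw [kf_eq, phi_mul a b, phi_pow (In_one.add h), phi_add In_one h,
    phi_add In_one (In_ofNat2.mul h), phi_mul In_ofNat2 h, phi_one, phi_ofNat2]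
  exact ⟨a.mul b, rfl⟩

lemma VV_unit {N l : ℕ} (hd : ¬ (p : ℤ) ∣ 2 * N - (2 * l + 1)) :
    VV p N l = N * io p (2 * N - (2 * l + 1)) := by
  unfold VV
  have := phi_div (p := p) (N : ℤ) hd
  rw [vv_eq]; exact_mod_cast this

lemma FF_unit {N l : ℕ} (hd : ¬ (p : ℤ) ∣ 2 * N - (2 * l + 1)) :
    FF p N l = 1 - 4 * (N * io p (2 * N - (2 * l + 1))) := by
  have h : In (vv ℚ_[p] N l) := by
    have := In_div (p := p) (N : ℤ) hd
    rw [vv_eq]; exact_mod_cast this
  rw [(ff_of_In h).2, VV_unit hd]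

lemma GR_unit {N i : ℕ} (hi : 0 < i) (hd : ¬ (p : ℤ) ∣ i + 2 * N) :
    GR p N i = 1 - 3 * (N * io p (i + 2 * N)) := by
  have a := In_div (p := p) (N : ℤ) hd
  have b := phi_div (p := p) (N : ℤ) hd
  rw [Int.cast_natCast] at a b
  rw [(gg_of_In hi a).2, b, Int.cast_natCast]

lemma KF_unit {N i : ℕ} (hd : ¬ (p : ℤ) ∣ i) :
    KF p N i = (1 + N * io p i) ^ 2 * (1 + 2 * (N * io p i)) := by
  have a := In_div (p := p) (N : ℤ) hd
  have b := phi_div (p := p) (N : ℤ) hd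
  rw [Int.cast_natCast N] at a b
  rw [(kf_of_In a).2, b, Int.cast_natCast]

lemma p_ne : (p : ℚ_[p]) ≠ 0 := by exact_mod_cast hpp.out.ne_zero

lemma VV_special {h : ℕ} (hp : p = 2 * h + 1) (M l : ℕ) :
    vv ℚ_[p] (p * M) (p * l + h) = vv ℚ_[p] M l := by
  unfold vv
  have hp' : (p : ℚ_[p]) = 2 * h + 1 := by exact_mod_cast congrArg (fun z : ℕ => (z : ℚ_[p])) hp
  have e : (2 * ((p * M : ℕ) : ℚ_[p]) - (2 * ((p * l + h : ℕ) : ℚ_[p]) + 1)) =
      p * (2 * M - (2 * l + 1)) := by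
    push_cast; linear_combination hp'
  rw [e]; push_cast
  rw [mul_div_mul_left _ _ p_ne]

lemma FF_special {h : ℕ} (hp : p = 2 * h + 1) (M l : ℕ) :
    FF p (p * M) (p * l + h) = FF p M l := by
  unfold FF; rw [ff_eq, ff_eq, VV_special hp]

lemma GR_special (M i : ℕ) : GR p (p * M) (p * i) = GR p M i := by
  unfold GR gg
  congr 1
  push_cast
  rw [← mul_div_mul_left ((i : ℚ_[p]) - M) _ p_ne]
  congr 1 <;> ring

lemma KF_special (M i : ℕ) : KF p (p * M) (p * i) = KF p M i := by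
  unfold KF kf
  push_cast
  rw [mul_div_mul_left _ _ p_ne]

lemma VV_rel {M l : ℕ} (h : In (vv ℚ_[p] M l)) :
    VV p M l * (2 * M - (2 * l + 1)) = M := by
  have a := phi_mul h (In_int (p := p) (2 * M - (2 * l + 1)))
  have b1 : (2 * (l : ℚ_[p]) + 1 - 2 * M) ≠ 0 := odd_ne l M
  have e : vv ℚ_[p] M l * ((2 * M - (2 * l + 1) : ℤ) : ℚ_[p]) = M := by
    rw [vv_eq, div_mul_cancel₀]
    push_cast
    intro h0; apply b1; linear_combination -h0
  rw [e, phi_nat, phi_int] at a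
  unfold VV
  push_cast at a
  exact a.symm

noncomputable def AR (p : ℕ) [Fact p.Prime] (N l : ℕ) : RR p :=
  ∏ i ∈ range l, (FF p N i * GR p N (i + 1))

noncomputable def TR (p : ℕ) [Fact p.Prime] (N : ℕ) : RR p :=
  io p (-192) ^ (N - 1) * (∏ i ∈ range N, KF p N i) *
    ∑ l ∈ range N, (-3) ^ l * VV p N l * AR p N l

lemma In_vv (a l : ℕ) (h3 : 3 < p) (hl : l < p ^ a) : In (vv ℚ_[p] (p ^ a) l) := by
  rw [vv_eq]
  refine In_pow_div a _ ?_
  have : 4 * p ^ a ≤ p ^ (a + 1) := by rw [pow_succ, mul_comm]; gcongr; omega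
  have e : ((p : ℤ) ^ (a + 1)) = ((p ^ (a + 1) : ℕ) : ℤ) := by push_cast; rfl
  rw [e, abs_lt]; omega

lemma not_dvd_192 (h3 : 3 < p) : ¬ (p : ℤ) ∣ -192 := by
  rw [dvd_neg]
  intro h
  have h' : p ∣ 2 ^ 6 * 3 := by exact_mod_cast h
  rcases (Nat.Prime.dvd_mul hpp.out).1 h' with h | h
  · have := Nat.le_of_dvd (by omega) (hpp.out.dvd_of_dvd_pow h); omega
  · have := Nat.le_of_dvd (by omega) h; omega

theorem phi_T (a : ℕ) (h3 : 3 < p) :
    In ((1 / ((p ^ a : ℕ) : ℚ_[p])) * ∑ k ∈ range (p ^ a), (5 * (k : ℚ_[p]) + 1) * tt ℚ_[p] k) ∧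
    phi ((1 / ((p ^ a : ℕ) : ℚ_[p])) * ∑ k ∈ range (p ^ a), (5 * (k : ℚ_[p]) + 1) * tt ℚ_[p] k) =
      TR p (p ^ a) := by
  have hpos : 0 < p ^ a := pow_pos hpp.out.pos a
  have h4 : 4 * p ^ a ≤ p ^ (a + 1) := by rw [pow_succ, mul_comm]; gcongr; omega
  have e : ((p : ℤ) ^ (a + 1)) = ((p ^ (a + 1) : ℕ) : ℤ) := by push_cast; rfl
  have key := key_identity (F := ℚ_[p]) (p ^ a - 1)
  rw [Nat.sub_add_cancel hpos] at key
  rw [key]
  have iw : In (1 / (-192 : ℚ_[p])) := by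
    have := In_div (p := p) 1 (not_dvd_192 h3)
    exact_mod_cast this
  have pw : phi (1 / (-192 : ℚ_[p])) = io p (-192) := by
    have := phi_div (p := p) 1 (not_dvd_192 h3)
    rw [Int.cast_one, Int.cast_one, one_mul] at this
    exact_mod_cast this
  have ik := In_phi_prod (fun i => kf ℚ_[p] (p ^ a) i) (p ^ a) (fun i hi =>
    (kf_of_In (In_pow_div a i (by rw [e, abs_lt]; omega))).1)
  have iA : ∀ l < p ^ a, In (AA ℚ_[p] (p ^ a) l) ∧ phi (AA ℚ_[p] (p ^ a) l) = AR p (p ^ a) l := by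
    intro l hl
    have f1 : ∀ i < l, In (ff ℚ_[p] (p ^ a) i) := fun i hi => (ff_of_In (In_vv a i h3 (by omega))).1
    have g1 : ∀ i < l, In (gg ℚ_[p] (p ^ a) (i + 1)) := fun i hi =>
      (gg_of_In (by omega) (In_pow_div a (((i + 1 : ℕ) : ℤ) + 2 * ((p ^ a : ℕ) : ℤ))
        (by rw [e, abs_lt]; omega))).1
    have := In_phi_prod (fun i => ff ℚ_[p] (p ^ a) i * gg ℚ_[p] (p ^ a) (i + 1)) l
      (fun i hi => (f1 i hi).mul (g1 i hi))
    refine ⟨this.1, this.2.trans ?_⟩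
    unfold AR
    apply prod_congr rfl; intro i hi
    exact phi_mul (f1 i (mem_range.1 hi)) (g1 i (mem_range.1 hi))
  have i3 : In (-3 : ℚ_[p]) := by exact_mod_cast In_int (p := p) (-3)
  have p3' : phi (-3 : ℚ_[p]) = -3 := by exact_mod_cast phi_int (p := p) (-3)
  have iS := In_phi_sum (fun l => (-3 : ℚ_[p]) ^ l * vv ℚ_[p] (p ^ a) l * AA ℚ_[p] (p ^ a) l)
    (p ^ a) (fun l hl => ((i3.pow l).mul (In_vv a l h3 hl)).mul (iA l hl).1)
  refine ⟨((iw.pow _).mul ik.1).mul iS.1, ?_⟩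
  unfold kk
  rw [phi_mul ((iw.pow _).mul ik.1) iS.1, phi_mul (iw.pow _) ik.1, phi_pow iw, pw, ik.2, iS.2]
  unfold TR
  congr 1
  apply sum_congr rfl; intro l hl
  have hl := mem_range.1 hl
  rw [phi_mul ((i3.pow l).mul (In_vv a l h3 hl)) (iA l hl).1, phi_mul (i3.pow l) (In_vv a l h3 hl),
    phi_pow i3, p3', (iA l hl).2]
  rfl

end Pool.Agent.Work.MP_096b72_nt
end

-- merged part: Pool.Agent.Work.MP_096b72_nt.Block
section
set_option autoImplicit false

namespace Pool.Agent.Work.MP_096b72_nt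

open Finset

variable {p : ℕ} [hpp : Fact p.Prime] {h : ℕ}

omit hpp in
lemma nd_odd (hp : p = 2 * h + 1) {j : ℕ} (hj : j < p) (hne : j ≠ h) :
    ¬ (p : ℤ) ∣ 2 * j + 1 := by
  intro hd
  rcases lt_or_gt_of_ne hne with h1 | h1
  · exact not_dvd_of_lt (by omega) (by omega) hd
  · have : (p : ℤ) ∣ 2 * j + 1 - p := dvd_sub hd dvd_rfl
    exact not_dvd_of_lt (by omega) (by omega) this

omit hpp in
lemma nd_vv (hp : p = 2 * h + 1) (M l : ℕ) {j : ℕ} (hj : j < p) (hne : j ≠ h) :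
    ¬ (p : ℤ) ∣ 2 * ((p * M : ℕ) : ℤ) - (2 * ((p * l + j : ℕ) : ℤ) + 1) := by
  intro hd
  apply nd_odd hp hj hne
  have : (2 * j + 1 : ℤ) = p * (2 * M - 2 * l) -
      (2 * ((p * M : ℕ) : ℤ) - (2 * ((p * l + j : ℕ) : ℤ) + 1)) := by push_cast; ring
  rw [this]; exact dvd_sub (dvd_mul_right _ _) hd

lemma psi_vv (M l j : ℕ) :
    psi p (io p (2 * ((p * M : ℕ) : ℤ) - (2 * ((p * l + j : ℕ) : ℤ) + 1))) =
      psi p (-io p (2 * (j : ℤ) + 1)) := by
  rw [map_neg, psi_io, psi_io, ← inv_neg]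
  push_cast
  simp [CharP.cast_eq_zero]

section block
variable (hp : p = 2 * h + 1) (M l : ℕ) (δ : RR p)
  (hδ : ∀ x y : RR p, psi p x = psi p y → δ * ((p * M : ℕ) : RR p) * x = δ * ((p * M : ℕ) : RR p) * y)
include hp hδ

omit hp in
lemma delta_sq : δ * ((p * M : ℕ) : RR p) ^ 2 = 0 := by
  have := hδ ((p * M : ℕ) : RR p) 0 (by push_cast; rw [map_mul, psi_p]; simp)
  linear_combination this

lemma delta_p : δ * ((p * M : ℕ) : RR p) * io p (2 * (h : ℤ) + 1) = 0 := by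
  have := hδ (io p (2 * (h : ℤ) + 1)) 0 (by
    rw [psi_io]; push_cast; rw [hcast hp]; simp)
  linear_combination this

lemma F_factor {j : ℕ} (hj : j < p) :
    δ * FF p (p * M) (p * l + j) = δ * ((if j = h then FF p M l else 1) *
      (1 + 4 * ((p * M : ℕ) : RR p) * io p (2 * (j : ℤ) + 1))) := by
  by_cases hjh : j = h
  · subst hjh
    rw [FF_special hp, if_pos rfl]
    linear_combination -4 * FF p M l * delta_p hp M δ hδ
  · rw [if_neg hjh, FF_unit (nd_vv hp M l hj hjh)]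
    linear_combination -4 * hδ _ _ (psi_vv M l j)

lemma G_factor {j : ℕ} (hj : j < p) :
    δ * GR p (p * M) (p * l + j + 1) = δ * ((if j = 2 * h then GR p M (l + 1) else 1) *
      (1 - 3 * ((p * M : ℕ) : RR p) * io p ((j : ℤ) + 1))) := by
  by_cases hjh : j = 2 * h
  · subst hjh
    rw [if_pos rfl, show p * l + 2 * h + 1 = p * (l + 1) by rw [mul_add]; omega, GR_special]
    push_cast
    have := delta_p hp M δ hδ
    push_cast at this
    linear_combination 3 * GR p M (l + 1) * this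
  · have hd : ¬ (p : ℤ) ∣ ((p * l + j + 1 : ℕ) : ℤ) + 2 * ((p * M : ℕ) : ℤ) := by
      intro hd
      have e : ((j : ℤ) + 1) = ((p * l + j + 1 : ℕ) : ℤ) + 2 * ((p * M : ℕ) : ℤ) -
          p * (l + 2 * M) := by push_cast; ring
      have : (p : ℤ) ∣ (j : ℤ) + 1 := by rw [e]; exact dvd_sub hd (dvd_mul_right _ _)
      exact not_dvd_of_lt (by omega) (by omega) this
    rw [if_neg hjh, GR_unit (by omega) hd]
    have := hδ (io p (((p * l + j + 1 : ℕ) : ℤ) + 2 * ((p * M : ℕ) : ℤ))) (io p ((j : ℤ) + 1)) (by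
      rw [psi_io, psi_io]; push_cast; simp [CharP.cast_eq_zero])
    linear_combination -3 * this

lemma block_prod {r : ℕ} (hr : r ≤ p) :
    δ * ∏ j ∈ range r, (FF p (p * M) (p * l + j) * GR p (p * M) (p * l + j + 1)) =
      δ * ((∏ j ∈ range r, ((if j = h then FF p M l else 1) *
        (if j = 2 * h then GR p M (l + 1) else 1))) *
        (1 + ((p * M : ℕ) : RR p) * (4 * OR p r - 3 * HR p r))) := by
  have := prod1 δ ((p * M : ℕ) : RR p) (delta_sq M δ hδ)
    (fun j => FF p (p * M) (p * l + j) * GR p (p * M) (p * l + j + 1))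
    (fun j => (if j = h then FF p M l else 1) * (if j = 2 * h then GR p M (l + 1) else 1))
    (fun j => 4 * io p (2 * (j : ℤ) + 1) - 3 * io p ((j : ℤ) + 1)) r (by
      intro j hj
      have a := F_factor hp M l δ hδ (j := j) (by omega)
      have b := G_factor hp M l δ hδ (j := j) (by omega)
      have c := delta_sq M δ hδ
      generalize (if j = h then FF p M l else 1) = c1 at *
      generalize (if j = 2 * h then GR p M (l + 1) else 1) = c2 at *
      linear_combination GR p (p * M) (p * l + j + 1) * a +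
        c1 * (1 + 4 * ((p * M : ℕ) : RR p) * io p (2 * (j : ℤ) + 1)) * b -
        12 * c1 * c2 * io p (2 * (j : ℤ) + 1) * io p ((j : ℤ) + 1) * c)
  rw [this]
  unfold OR HR
  rw [sum_sub_distrib, ← mul_sum, ← mul_sum]

lemma block_low {r : ℕ} (hr : r ≤ h) (h3 : 3 < p) :
    δ * ∏ j ∈ range r, (FF p (p * M) (p * l + j) * GR p (p * M) (p * l + j + 1)) =
      δ * (1 + ((p * M : ℕ) : RR p) * (4 * OR p r - 3 * HR p r)) := by
  rw [block_prod hp M l δ hδ (by omega), prod_eq_one, one_mul]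
  intro j hj
  have := mem_range.1 hj
  rw [if_neg (by omega), if_neg (by omega), one_mul]

lemma block_high {r : ℕ} (hr : h < r) (hr' : r ≤ 2 * h) :
    δ * ∏ j ∈ range r, (FF p (p * M) (p * l + j) * GR p (p * M) (p * l + j + 1)) =
      δ * (FF p M l * (1 + ((p * M : ℕ) : RR p) * (4 * OR p r - 3 * HR p r))) := by
  rw [block_prod hp M l δ hδ (by omega), prod_mul_distrib, prod_ite_eq' (range r) h,
    if_pos (mem_range.2 hr), prod_ite_eq' (range r) (2 * h), if_neg (by simp; omega), mul_one]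

lemma block_full (h3 : 3 < p) :
    δ * ∏ j ∈ range p, (FF p (p * M) (p * l + j) * GR p (p * M) (p * l + j + 1)) =
      δ * (FF p M l * GR p M (l + 1)) := by
  rw [block_prod hp M l δ hδ le_rfl, prod_mul_distrib, prod_ite_eq' (range p) h,
    if_pos (mem_range.2 (by omega)), prod_ite_eq' (range p) (2 * h),
    if_pos (mem_range.2 (by omega))]
  have := hδ (4 * OR p p - 3 * HR p p) 0 (by
    have e1 : OO (KK p) p = 0 := by
      have : OO (KK p) (h + 1 + h) = 0 := by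
        rw [OO_upper hp h3, OO_half hp h3]; field_simp [two_ne (K := KK p) h3]; ring
      rwa [show h + 1 + h = p by omega] at this
    have e2 : HH (KK p) p = 0 := by
      have : HH (KK p) (2 * h + 1) = 0 := by
        rw [HH_succ, HH_full hp h3]; push_cast; rw [hcast hp]; simp
      rwa [← hp] at this
    simp [psi_OR, psi_HR, e1, e2])
  linear_combination FF p M l * GR p M (l + 1) * this

end block

lemma AR_split (N a r : ℕ) :
    AR p N (a + r) = AR p N a * ∏ j ∈ range r, (FF p N (a + j) * GR p N (a + j + 1)) := by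
  unfold AR; rw [prod_range_add]

lemma w_rel (h : ℕ) (h3 : 3 < p) :
    io p (-192) ^ (2 * h) * ((2 ^ (2 * h)) ^ 6 * ((-3) ^ h) ^ 2) = 1 := by
  have a := io_mul (not_dvd_192 h3)
  have e : ((2 : RR p) ^ (2 * h)) ^ 6 * ((-3) ^ h) ^ 2 = ((-192 : ℤ) : RR p) ^ (2 * h) := by
    rw [← pow_mul, ← pow_mul, mul_comm (2 * h) 6, pow_mul, mul_comm h 2, ← mul_pow]
    rw [pow_mul, pow_mul]; norm_num
  rw [e, ← mul_pow, mul_comm, a, one_pow]

end Pool.Agent.Work.MP_096b72_nt
end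

-- merged part: Pool.Agent.Work.MP_096b72_nt.Rec
section
set_option autoImplicit false

namespace Pool.Agent.Work.MP_096b72_nt

open Finset

variable {p : ℕ} [hpp : Fact p.Prime] {h : ℕ}

lemma alg_rec {R : Type*} [CommRing R] (π m η a χ V ae o l θ S q Mo : R) (h3 : π ^ 3 = 0)
    (hV : V * (2 * π * m - o) = π * m) (hχ : χ ^ 2 = 1) (hη : π ^ 2 * (η + 6 * q + 2 * χ * θ) = 0)
    (hae : π ^ 2 * ae = -(π ^ 2 * q)) (hS : π ^ 2 * S = π ^ 2 * 10 * q)
    (hθ : θ = χ * q - a + π * Mo) :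
    (1 + π ^ 2 * m * η) * (-(π ^ 2 * m) * a - π ^ 2 * m * χ * (1 - 4 * V) * ae +
      χ * (1 + o * π * (χ * θ) + o * l * π ^ 2 * (χ * θ) ^ 2) * V * (1 + π ^ 2 * m * S)) =
      χ * V := by
  linear_combination ((-1) * Mo * m + S * V * l * m * o * θ ^ 2 * π * χ ^ 3 +
    S * V * l * m ^ 2 * o * η * θ ^ 2 * π ^ 3 * χ ^ 3 + S * V * m * o * θ * χ ^ 2 +
    S * V * m ^ 2 * o * η * θ * π ^ 2 * χ ^ 2 + S * V * m ^ 2 * η * π * χ +
    4 * V * ae * m ^ 2 * η * π * χ + V * l * m * o * η * θ ^ 2 * π * χ ^ 3 +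
    2 * V * l * m * θ ^ 2 * χ ^ 3 + V * m * o * η * θ * χ ^ 2 + (-1) * a * m ^ 2 * η * π +
    (-1) * ae * m ^ 2 * η * π * χ + (-1) * l * m * θ ^ 2 * χ ^ 3) * h3 +
    ((-1) * l * θ ^ 2 * π ^ 2 * χ ^ 3 + (-1) * θ * π * χ ^ 2) * hV +
    ((-1) * m * θ * π ^ 2) * hχ +
    (V * m * χ) * hη +
    (4 * V * m * χ + (-1) * m * χ) * hae +
    (V * m * χ) * hS +
    ((-1) * m * π ^ 2) * hθ

lemma n_cong (m : ℕ) (x y : RR p) (hxy : psi p x = psi p y) :
    1 * ((p * (p * m) : ℕ) : RR p) * x = 1 * ((p * (p * m) : ℕ) : RR p) * y := by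
  push_cast
  linear_combination m * psi_eq hxy

lemma AR_blocks (hp : p = 2 * h + 1) (h3 : 3 < p) (m l : ℕ) :
    AR p (p * (p * m)) (p * l) = AR p (p * m) l := by
  induction l with
  | zero => simp [AR]
  | succ l ih =>
    have := block_full hp (p * m) l 1 (n_cong m) h3
    rw [one_mul, one_mul] at this
    rw [Nat.mul_succ, AR_split, this, ih]
    unfold AR; rw [prod_range_succ]

lemma KF_blocks (hp : p = 2 * h + 1) (h3 : 3 < p) (m : ℕ) :
    ∏ i ∈ range (p * (p * m)), KF p (p * (p * m)) i = ∏ j ∈ range (p * m), KF p (p * m) j := by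
  rw [prod_blocks]
  apply prod_congr rfl; intro j _
  have hsq := delta_sq (p * m) 1 (n_cong (p := p) m)
  rw [congrArg range hp, prod_range_succ', add_zero, KF_special]
  have := prod1 1 ((p * (p * m) : ℕ) : RR p) hsq (fun r => KF p (p * (p * m)) (p * j + (r + 1)))
    (fun _ => 1) (fun r => 4 * io p ((r : ℤ) + 1)) (2 * h) (by
      intro r hr
      have hd : ¬ (p : ℤ) ∣ ((p * j + (r + 1) : ℕ) : ℤ) := by
        intro hd
        have e : ((r : ℤ) + 1) = ((p * j + (r + 1) : ℕ) : ℤ) - p * j := by push_cast; ring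
        have : (p : ℤ) ∣ (r : ℤ) + 1 := by rw [e]; exact dvd_sub hd (dvd_mul_right _ _)
        exact not_dvd_of_lt (by omega) (by omega) this
      have c := n_cong m (io p ((p * j + (r + 1) : ℕ) : ℤ)) (io p ((r : ℤ) + 1)) (by
        rw [psi_io, psi_io]; push_cast; simp [CharP.cast_eq_zero])
      rw [KF_unit hd]
      generalize io p ((p * j + (r + 1) : ℕ) : ℤ) = u at *
      generalize ((p * (p * m) : ℕ) : RR p) = n at *
      linear_combination 4 * c + (5 * u ^ 2 + 2 * n * u ^ 3) * hsq)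
  have w := wolst hp h3
  unfold HR at w
  rw [← mul_sum] at this
  simp only [one_mul, prod_const_one] at this
  rw [this]
  push_cast
  linear_combination 4 * p * m * KF p (p * m) j * w

lemma frob3 : (-3 : KK p) ^ p = -3 := by
  have a : ((-3 : ℤ) : KK p) ^ p = ((-3 : ℤ) : KK p) := by
    rw [← frobenius_def, map_intCast]
  exact_mod_cast a

omit hpp in
lemma chi_sq {χ : ℤ} (hχ : (p % 3 = 1 ∧ χ = 1) ∨ (p % 3 = 2 ∧ χ = -1)) : (χ : RR p) ^ 2 = 1 := by
  rcases hχ with ⟨_, rfl⟩ | ⟨_, rfl⟩ <;> simp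

lemma psi_three_h (hp : p = 2 * h + 1) (h3 : 3 < p) {χ : ℤ}
    (hχ : (p % 3 = 1 ∧ χ = 1) ∨ (p % 3 = 2 ∧ χ = -1)) : (-3 : KK p) ^ h = χ := by
  obtain ⟨q, hq⟩ := fermat_two hp h3
  have b := congrArg (psi p) (B1 hp χ hχ)
  rw [hq] at b
  simpa [psi_p, map_ofNat] using b

lemma block_sum (hp : p = 2 * h + 1) (h3 : 3 < p) {χ : ℤ}
    (hχ : (p % 3 = 1 ∧ χ = 1) ∨ (p % 3 = 2 ∧ χ = -1)) (m l : ℕ)
    (hIn : In (vv ℚ_[p] (p * m) l)) :
    (io p (-192) ^ (2 * h)) ^ (p * m) *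
      ∑ r ∈ range p, (-3) ^ (p * l + r) * VV p (p * (p * m)) (p * l + r) *
        AR p (p * (p * m)) (p * l + r) =
      χ * ((-3) ^ l * VV p (p * m) l * AR p (p * m) l) := by
  obtain ⟨q, hq⟩ := fermat_two hp h3
  have b1 := B1 hp χ hχ
  have b2 := B2 hp χ hχ
  have c2 := chi_sq hχ
  have t3 := p3 (p := p)
  have k3 := psi_three_h hp h3 hχ
  have hH := HR_half hp h3 q hq
  have hO := OR_HR hp h3
  have hw := w_rel (p := p) h h3
  rw [hq] at b1 b2 hw
  set a := soR p h (fun _ => 1) with ha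
  set ae := seR p h (fun _ => 1) with hae
  set Mo := soR p h (fun l => HR p (2 * l)) with hMo
  set θ : RR p := χ * q - a + p * Mo with hθ
  have x1 : (-3 : RR p) ^ h = χ * (1 + p * (χ * θ)) := by
    rw [b1, hθ]; linear_combination -(p * (χ * q - a + p * Mo)) * c2
  obtain ⟨η, hη⟩ : ∃ η : RR p, io p (-192) ^ (2 * h) = 1 + p * η := by
    have : psi p (io p (-192) ^ (2 * h) - 1) = 0 := by
      have := congrArg (psi p) hw
      rw [x1] at this
      have c2' := congrArg (psi p) c2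
      simp only [map_mul, map_pow, map_add, map_one, psi_p, zero_mul, add_zero, one_pow, one_mul,
        mul_one] at this c2'
      rw [c2', mul_one] at this
      rw [map_sub, map_pow, this, map_one, sub_self]
    obtain ⟨η, hη⟩ := psi_ker this
    exact ⟨η, by linear_combination hη⟩
  have hη2 : (p : RR p) ^ 2 * (η + 6 * q + 2 * χ * θ) = 0 := by
    rw [hη, x1] at hw
    have e6 : (p : RR p) * (1 + p * q) ^ 6 = p * (1 + 6 * p * q) := by
      linear_combination (15 * q ^ 2 + 20 * p * q ^ 3 + 15 * p ^ 2 * q ^ 4 + 6 * p ^ 3 * q ^ 5 +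
        p ^ 4 * q ^ 6) * t3
    generalize (1 + (p : RR p) * q) ^ 6 = Q at hw e6
    generalize (χ : RR p) = c at hw c2 ⊢
    linear_combination p * hw + ((-1) * Q * p * η * θ ^ 2 * c ^ 4 + (-2) * Q * η * θ * c ^ 3 +
      (-1) * Q * θ ^ 2 * c ^ 4 + (-6) * q * η * c ^ 2 + (-12) * q * θ * c ^ 3) * t3 +
      ((-1) * p * η * c ^ 2 + (-2) * p * θ * c ^ 3 + (-1) * c ^ 2) * e6 +
      ((-1) * p + (-6) * p ^ 2 * q + (-1) * p ^ 2 * η + (-2) * p ^ 2 * θ * c) * c2
  have hp' : (2 * (h : RR p) + 1) = p := by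
    exact_mod_cast congrArg (fun z : ℕ => (z : RR p)) hp.symm
  have wM : (io p (-192) ^ (2 * h)) ^ (p * m) = 1 + p ^ 2 * m * η := by
    have e1 : (1 + (p : RR p) * η) ^ p = 1 + p ^ 2 * η := by
      have := pow_odd3 (p : RR p) t3 η h
      rw [← hp, hp'] at this
      rw [this]; linear_combination h * η ^ 2 * t3
    rw [hη, pow_mul, e1, pow_sq0 _ (by linear_combination p * η ^ 2 * t3)]; ring
  have hS : (p : RR p) ^ 2 * (4 * OR p h - 3 * HR p h) = p ^ 2 * 10 * q := by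
    linear_combination 2 * p * hO - 5 * p * hH - 5 * q ^ 2 * t3
  have hae2 : (p : RR p) ^ 2 * ae = -(p ^ 2 * q) := by
    linear_combination p * b2 + seR p h (fun l => HR p (2 * l + 1)) * t3
  have hV := VV_rel hIn
  have hF := (ff_of_In hIn).2
  have hn : ((p * (p * m) : ℕ) : RR p) = p ^ 2 * m := by push_cast; ring
  have low : ∑ r ∈ range h, (-3) ^ (p * l + r) * VV p (p * (p * m)) (p * l + r) *
      AR p (p * (p * m)) (p * l + r) = (-3) ^ l * AR p (p * m) l * (-(p ^ 2 * m) * a) := by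
    rw [ha]; unfold soR
    rw [mul_sum, mul_sum]
    apply sum_congr rfl; intro r hr
    have hr := mem_range.1 hr
    have bl := block_low hp (p * m) l 1 (n_cong m) (r := r) (by omega) h3
    rw [one_mul, one_mul] at bl
    rw [AR_split, AR_blocks hp h3, bl, VV_unit (nd_vv hp _ l (by omega) (by omega))]
    have := n_cong m ((-3) ^ (p * l + r) *
      io p (2 * ((p * (p * m) : ℕ) : ℤ) - (2 * ((p * l + r : ℕ) : ℤ) + 1)) *
      (1 + ((p * (p * m) : ℕ) : RR p) * (4 * OR p r - 3 * HR p r)))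
      (-((-3) ^ l * ((-3) ^ r * io p (2 * (r : ℤ) + 1)))) (by
        rw [map_mul, map_mul, psi_vv, hn]
        simp [pow_add, pow_mul, map_ofNat, frob3]
        ring)
    rw [hn] at this ⊢
    linear_combination AR p (p * m) l * this
  have high : ∑ k ∈ range h, (-3) ^ (p * l + (h + 1 + k)) *
      VV p (p * (p * m)) (p * l + (h + 1 + k)) * AR p (p * (p * m)) (p * l + (h + 1 + k)) =
      (-3) ^ l * AR p (p * m) l * (-(p ^ 2 * m * χ * (1 - 4 * VV p (p * m) l) * ae)) := by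
    rw [hae]; unfold seR
    rw [mul_sum, ← sum_neg_distrib, mul_sum]
    apply sum_congr rfl; intro k hk
    have hk := mem_range.1 hk
    have bl := block_high hp (p * m) l 1 (n_cong m) (r := h + 1 + k) (by omega) (by omega)
    rw [one_mul, one_mul] at bl
    rw [AR_split, AR_blocks hp h3, bl, VV_unit (nd_vv hp _ l (by omega) (by omega)), hF]
    have := n_cong m ((-3) ^ (p * l + (h + 1 + k)) *
      io p (2 * ((p * (p * m) : ℕ) : ℤ) - (2 * ((p * l + (h + 1 + k) : ℕ) : ℤ) + 1)) *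
      (1 + ((p * (p * m) : ℕ) : RR p) * (4 * OR p (h + 1 + k) - 3 * HR p (h + 1 + k))))
      (-((-3) ^ l * (χ : RR p) * ((-3) ^ (k + 1) * io p (2 * (k : ℤ) + 2)))) (by
        rw [map_mul, map_mul, psi_vv, hn]
        have e : (2 * ((h : KK p) + 1 + k) + 1) = 2 * k + 2 := by
          linear_combination hcast (K := KK p) hp
        simp [pow_add, pow_mul, map_ofNat, frob3, psi_io, e, k3]
        ring)
    rw [hn] at this ⊢
    linear_combination AR p (p * m) l * (1 - 4 * VV p (p * m) l) * this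
  have mid : (-3) ^ (p * l + h) * VV p (p * (p * m)) (p * l + h) *
      AR p (p * (p * m)) (p * l + h) = (-3) ^ l * AR p (p * m) l *
        (χ * (1 + (2 * l + 1) * p * (χ * θ) + (2 * l + 1) * l * p ^ 2 * (χ * θ) ^ 2) *
          VV p (p * m) l * (1 + p ^ 2 * m * (4 * OR p h - 3 * HR p h))) := by
    have bl := block_low hp (p * m) l 1 (n_cong m) (r := h) le_rfl h3
    rw [one_mul, one_mul] at bl
    have e1 : VV p (p * (p * m)) (p * l + h) = VV p (p * m) l := by
      unfold VV; rw [VV_special hp]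
    have e2 : p * l + h = l + h * (2 * l + 1) := by rw [hp]; ring
    have e3 : (χ : RR p) ^ (2 * l + 1) = χ := by rw [pow_succ, pow_mul, c2, one_pow, one_mul]
    rw [AR_split, AR_blocks hp h3, bl, e1, e2, pow_add, pow_mul, x1, mul_pow, e3,
      pow_odd3 _ t3, hn]
    ring
  rw [congrArg range hp, sum_three, low, mid, high, wM]
  have := alg_rec (p : RR p) m η a χ (VV p (p * m) l) ae (2 * l + 1) l θ
    (4 * OR p h - 3 * HR p h) q Mo t3 (by push_cast at hV; linear_combination hV) c2 hη2 hae2 hS hθ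
  linear_combination (-3) ^ l * AR p (p * m) l * this

theorem TR_rec (hp : p = 2 * h + 1) (h3 : 3 < p) {χ : ℤ}
    (hχ : (p % 3 = 1 ∧ χ = 1) ∨ (p % 3 = 2 ∧ χ = -1)) (m : ℕ) (hm : 0 < m)
    (hIn : ∀ l < p * m, In (vv ℚ_[p] (p * m) l)) :
    TR p (p * (p * m)) = χ * TR p (p * m) := by
  unfold TR
  have hpos : 0 < p * m := Nat.mul_pos (by omega) hm
  have e : p * (p * m) - 1 = (p * m - 1) + 2 * h * (p * m) := by
    generalize p * m = M at *
    have : p * M = M + 2 * h * M := by rw [hp]; ring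
    omega
  rw [KF_blocks hp h3, e, pow_add, pow_mul, sum_blocks]
  have : (io p (-192) ^ (2 * h)) ^ (p * m) * ∑ l ∈ range (p * m), ∑ r ∈ range p,
      (-3) ^ (p * l + r) * VV p (p * (p * m)) (p * l + r) * AR p (p * (p * m)) (p * l + r) =
      χ * ∑ l ∈ range (p * m), (-3) ^ l * VV p (p * m) l * AR p (p * m) l := by
    rw [mul_sum, mul_sum]
    exact sum_congr rfl fun l hl => block_sum hp h3 hχ m l (hIn l (mem_range.1 hl))
  linear_combination io p (-192) ^ (p * m - 1) * (∏ j ∈ range (p * m), KF p (p * m) j) * this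

end Pool.Agent.Work.MP_096b72_nt
end

-- merged part: Pool.Agent.Work.MP_096b72_nt.Base
section
set_option autoImplicit false

namespace Pool.Agent.Work.MP_096b72_nt

open Finset

variable {p : ℕ} [hpp : Fact p.Prime] {h : ℕ}

lemma alg_base {R : Type*} [CommRing R] (π a Xo Xe Mo Me q χ ae s x : R) (h3 : π ^ 3 = 0)
    (hχ : χ ^ 2 = 1) (b1 : x = χ * (1 + π * q) - π * a + π ^ 2 * Mo)
    (b2 : π * ae = 1 - (1 + π * q) + π ^ 2 * Me)
    (hK : π ^ 2 * (-Xo - Mo + 3 * χ * (Me + Xe)) =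
      π ^ 2 * (5 * χ * s - 24 * χ * q ^ 2 - 7 * q * a + χ * a ^ 2)) :
    -π * a - π ^ 2 * Xo + x * (1 + 10 * π * q + 45 * π ^ 2 * q ^ 2) +
      3 * x * (π * ae + π ^ 2 * Xe) =
      (1 + 6 * π * q + 15 * π ^ 2 * q ^ 2) * x ^ 2 * (χ + 5 * χ * π ^ 2 * s) := by
  subst b1
  linear_combination ((-3) * Me * a + 3 * Me * q * χ + 3 * Mo * Xe * π +
    60 * Mo * a * q * s * π ^ 3 * χ + 12 * Mo * a * q * π * χ +
    150 * Mo * a * q ^ 2 * s * π ^ 4 * χ + 30 * Mo * a * q ^ 2 * π ^ 2 * χ +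
    10 * Mo * a * s * π ^ 2 * χ + 2 * Mo * a * χ + 3 * Mo * ae + 10 * Mo * q +
    (-70) * Mo * q * s * π ^ 2 * χ ^ 2 + (-14) * Mo * q * χ ^ 2 +
    (-210) * Mo * q ^ 2 * s * π ^ 3 * χ ^ 2 + 45 * Mo * q ^ 2 * π +
    (-42) * Mo * q ^ 2 * π * χ ^ 2 + (-150) * Mo * q ^ 3 * s * π ^ 4 * χ ^ 2 +
    (-30) * Mo * q ^ 3 * π ^ 2 * χ ^ 2 + (-10) * Mo * s * π * χ ^ 2 +
    (-30) * Mo ^ 2 * q * s * π ^ 4 * χ + (-6) * Mo ^ 2 * q * π ^ 2 * χ +
    (-75) * Mo ^ 2 * q ^ 2 * s * π ^ 5 * χ + (-15) * Mo ^ 2 * q ^ 2 * π ^ 3 * χ +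
    (-5) * Mo ^ 2 * s * π ^ 3 * χ + (-1) * Mo ^ 2 * π * χ + (-3) * Xe * a + 3 * Xe * q * χ +
    70 * a * q * s * π * χ ^ 2 + (-45) * a * q ^ 2 + 210 * a * q ^ 2 * s * π ^ 2 * χ ^ 2 +
    42 * a * q ^ 2 * χ ^ 2 + 150 * a * q ^ 3 * s * π ^ 3 * χ ^ 2 + 30 * a * q ^ 3 * π * χ ^ 2 +
    10 * a * s * χ ^ 2 + (-30) * a ^ 2 * q * s * π ^ 2 * χ + (-6) * a ^ 2 * q * χ +
    (-75) * a ^ 2 * q ^ 2 * s * π ^ 3 * χ + (-15) * a ^ 2 * q ^ 2 * π * χ +
    (-5) * a ^ 2 * s * π * χ + (-40) * q * s * χ ^ 3 + (-140) * q ^ 2 * s * π * χ ^ 3 +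
    (-180) * q ^ 3 * s * π ^ 2 * χ ^ 3 + 45 * q ^ 3 * χ + (-36) * q ^ 3 * χ ^ 3 +
    (-75) * q ^ 4 * s * π ^ 3 * χ ^ 3 + (-15) * q ^ 4 * π * χ ^ 3) * h3 + ((-2) * Mo * π ^ 2 +
    14 * a * q * π ^ 2 + 2 * a * π + (-8) * q * π * χ + (-28) * q ^ 2 * π ^ 2 * χ +
    (-5) * s * π ^ 2 * χ + (-1) * χ) * hχ + ((-3) * a * π + 3 * q * π * χ + 3 * χ) * b2 +
    (1) * hK

lemma alg_B {R : Type*} [CommRing R] (π q PF PG X : R) (h3 : π ^ 3 = 0)
    (hX : X = -2 * π * q + π ^ 2 * q ^ 2) (f : 2 * PF = 2 - 4 * X + 4 * X ^ 2)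
    (g : 2 * PG = 2 - 6 * X + 9 * X ^ 2) :
    2 * (2 * (PF * PG)) = 2 * (2 * (1 + 10 * π * q + 45 * π ^ 2 * q ^ 2)) := by
  subst hX
  linear_combination ((-32) * PG * q ^ 3 + 8 * PG * q ^ 4 * π + 312 * q ^ 3 + 90 * q ^ 4 * π +
    (-360) * q ^ 5 * π ^ 2 + 108 * q ^ 6 * π ^ 3) * h3 + (2 * PG) * f + (2 + 8 * q * π +
    12 * q ^ 2 * π ^ 2) * g

lemma io_neg {d : ℤ} (hd : ¬ (p : ℤ) ∣ d) : io p (-d) = -io p d := by
  have a := io_mul hd
  have b := io_mul (p := p) (d := -d) (by rwa [dvd_neg])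
  push_cast at b
  linear_combination -io p (-d) * a - io p d * b

lemma kappa_one (hp : p = 2 * h + 1) (h3 : 3 < p) : ∏ i ∈ range p, KF p (p * 1) i = 1 := by
  have k2 := H2_full (K := KK p) hp h3
  unfold H2 at k2
  have w := wolst hp h3
  have e0 : KF p (p * 1) 0 = 1 := by simp [KF, kf, phi_one]
  rw [congrArg range hp, prod_range_succ', e0, mul_one]
  have e1 : ∏ r ∈ range (2 * h), KF p (p * 1) (r + 1) =
      (∏ r ∈ range (2 * h), (1 + (p : RR p) * io p ((r : ℤ) + 1))) ^ 2 *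
        ∏ r ∈ range (2 * h), (1 + (p : RR p) * (2 * io p ((r : ℤ) + 1))) := by
    rw [← prod_pow, ← prod_mul_distrib]
    apply prod_congr rfl; intro r hr
    have hr := mem_range.1 hr
    rw [KF_unit (not_dvd_of_lt (by omega) (by omega))]
    push_cast; ring
  have b1 := prod2' (fun r => io p ((r : ℤ) + 1)) (2 * h) (by
    simp only [psi_io]; push_cast; exact k2)
  have b2 := prod2' (fun r => 2 * io p ((r : ℤ) + 1)) (2 * h) (by
    simp only [map_mul, psi_io, mul_pow, ← mul_sum]; push_cast; rw [k2, mul_zero])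
  rw [← mul_sum] at b2
  unfold HR at w
  have c1 : ∏ r ∈ range (2 * h), (1 + (p : RR p) * io p ((r : ℤ) + 1)) = 1 := by
    apply cancel_two h3
    linear_combination b1 + (2 + p * ∑ r ∈ range (2 * h), io p ((r : ℤ) + 1)) * w
  have c2 : ∏ r ∈ range (2 * h), (1 + (p : RR p) * (2 * io p ((r : ℤ) + 1))) = 1 := by
    apply cancel_two h3
    linear_combination b2 + (4 + 4 * p * ∑ r ∈ range (2 * h), io p ((r : ℤ) + 1)) * w
  rw [e1, c1, c2]; ring

lemma B_mid (hp : p = 2 * h + 1) (h3 : 3 < p) (q : RR p) (hq : 2 ^ (2 * h) = 1 + p * q) :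
    AR p (p * 1) h = 1 + 10 * p * q + 45 * p ^ 2 * q ^ 2 := by
  have hH := HR_half hp h3 q hq
  have hO := OR_HR hp h3
  have k2 := H2_half (K := KK p) hp h3
  have o2 := O2_zero (K := KK p) hp h3
  unfold H2 at k2
  unfold O2 at o2
  have e1 : AR p (p * 1) h =
      (∏ j ∈ range h, (1 + (p : RR p) * (-4 * io p (-(2 * (j : ℤ) + 1) + p * 2)))) *
        ∏ j ∈ range h, (1 + (p : RR p) * (-3 * io p (((j : ℤ) + 1) + p * 2))) := by
    unfold AR
    rw [← prod_mul_distrib]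
    apply prod_congr rfl; intro j hj
    have hj := mem_range.1 hj
    have d1 := nd_vv hp 1 0 (j := j) (by omega) (by omega)
    rw [mul_zero, zero_add] at d1
    have d2 : ¬ (p : ℤ) ∣ ((j + 1 : ℕ) : ℤ) + 2 * ((p * 1 : ℕ) : ℤ) := by
      intro hd
      have e : ((j : ℤ) + 1) = ((j + 1 : ℕ) : ℤ) + 2 * ((p * 1 : ℕ) : ℤ) - p * 2 := by
        push_cast; ring
      have : (p : ℤ) ∣ (j : ℤ) + 1 := by rw [e]; exact dvd_sub hd (dvd_mul_right _ _)
      exact not_dvd_of_lt (by omega) (by omega) this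
    rw [FF_unit d1, GR_unit (by omega) d2,
      show 2 * ((p * 1 : ℕ) : ℤ) - (2 * j + 1) = -(2 * (j : ℤ) + 1) + p * 2 by push_cast; ring,
      show ((j + 1 : ℕ) : ℤ) + 2 * ((p * 1 : ℕ) : ℤ) = ((j : ℤ) + 1) + p * 2 by push_cast; ring]
    push_cast; ring
  have b1 := prod2' (fun j => -4 * io p (-(2 * (j : ℤ) + 1) + p * 2)) h (by
    simp only [map_mul, psi_io, mul_pow, ← mul_sum]; push_cast
    simp only [CharP.cast_eq_zero, zero_mul, add_zero, inv_neg, neg_sq, o2, mul_zero])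
  have b2 := prod2' (fun j => -3 * io p (((j : ℤ) + 1) + p * 2)) h (by
    simp only [map_mul, psi_io, mul_pow, ← mul_sum]; push_cast
    simp only [CharP.cast_eq_zero, zero_mul, add_zero, k2, mul_zero])
  have z1 : (p : RR p) ^ 2 * ∑ j ∈ range h, io p (2 * (j : ℤ) + 1) ^ 2 = (p : RR p) ^ 2 * 0 := by
    apply psi_eq
    simp only [map_sum, map_pow, psi_io, map_zero]; push_cast; exact o2
  have z2 : (p : RR p) ^ 2 * ∑ j ∈ range h, io p ((j : ℤ) + 1) ^ 2 = (p : RR p) ^ 2 * 0 := by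
    apply psi_eq
    simp only [map_sum, map_pow, psi_io, map_zero]; push_cast; exact k2
  have s1 : (p : RR p) * ∑ j ∈ range h, -4 * io p (-(2 * (j : ℤ) + 1) + p * 2) =
      4 * p * OR p h + 8 * (p ^ 2 * ∑ j ∈ range h, io p (2 * (j : ℤ) + 1) ^ 2) := by
    unfold OR
    simp only [mul_sum, ← sum_add_distrib]
    apply sum_congr rfl; intro j hj
    have hj := mem_range.1 hj
    have d : ¬ (p : ℤ) ∣ 2 * (j : ℤ) + 1 := not_dvd_of_lt (by omega) (by omega)
    have := io_shift (p := p) (d := -(2 * (j : ℤ) + 1)) (c := 2) (by rwa [dvd_neg])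
    rw [io_neg d] at this
    push_cast at this
    linear_combination -4 * this
  have s2 : (p : RR p) * ∑ j ∈ range h, -3 * io p (((j : ℤ) + 1) + p * 2) =
      -3 * p * HR p h + 6 * (p ^ 2 * ∑ j ∈ range h, io p ((j : ℤ) + 1) ^ 2) := by
    unfold HR
    simp only [mul_sum, ← sum_add_distrib]
    apply sum_congr rfl; intro j hj
    have hj := mem_range.1 hj
    have d : ¬ (p : ℤ) ∣ (j : ℤ) + 1 := not_dvd_of_lt (by omega) (by omega)
    have := io_shift (p := p) (d := (j : ℤ) + 1) (c := 2) d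
    push_cast at this
    linear_combination -3 * this
  rw [z1] at s1
  rw [z2] at s2
  rw [e1]
  generalize ∑ j ∈ range h, -4 * io p (-(2 * (j : ℤ) + 1) + p * 2) = S1 at *
  generalize ∑ j ∈ range h, -3 * io p (((j : ℤ) + 1) + p * 2) = S2 at *
  have s1' : (p : RR p) * S1 = -2 * (p * HR p h) := by linear_combination s1 + 2 * hO
  have s2' : (p : RR p) * S2 = -3 * (p * HR p h) := by linear_combination s2
  apply cancel_two h3
  apply cancel_two h3
  apply alg_B (p : RR p) q _ _ (p * HR p h) p3 hH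
  · linear_combination b1 + (2 + p * S1 - 2 * (p * HR p h)) * s1'
  · linear_combination b2 + (2 + p * S2 - 3 * (p * HR p h)) * s2'

lemma exists_omega : ∃ w : KK p, w ^ 2 + w + 1 = 0 := by
  have hd : (Polynomial.X ^ 2 + Polynomial.X + 1 : Polynomial (KK p)).degree ≠ 0 := by
    have : (Polynomial.X ^ 2 + Polynomial.X + 1 : Polynomial (KK p)).degree = 2 := by
      compute_degree!
    rw [this]; decide
  obtain ⟨w, hw⟩ := IsAlgClosed.exists_root _ hd
  exact ⟨w, by simpa using hw⟩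

theorem TR_base (hp : p = 2 * h + 1) (h3 : 3 < p) {χ : ℤ}
    (hχ : (p % 3 = 1 ∧ χ = 1) ∨ (p % 3 = 2 ∧ χ = -1)) (s : RR p) (hs : psi p s = s0 (KK p) h) :
    TR p (p * 1) = χ + 5 * χ * p ^ 2 * s := by
  obtain ⟨q, hq⟩ := fermat_two hp h3
  have b1 := B1 hp χ hχ
  have b2 := B2 hp χ hχ
  have c2 := chi_sq hχ
  have t3 := p3 (p := p)
  have k3 := psi_three_h hp h3 hχ
  have hH := HR_half hp h3 q hq
  have hO := OR_HR hp h3
  have hw := w_rel (p := p) h h3
  have hB := B_mid hp h3 q hq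
  rw [hq] at b1 b2 hw
  have hδ : ∀ x y : RR p, psi p x = psi p y →
      (p : RR p) * ((p * 1 : ℕ) : RR p) * x = (p : RR p) * ((p * 1 : ℕ) : RR p) * y := by
    intro x y hxy
    push_cast
    linear_combination psi_eq hxy
  have pq : psi p q = OO (KK p) h := by
    rw [← psi_OR]
    apply psi_of
    apply cancel_two h3
    linear_combination p * hH - p * hO + q ^ 2 * t3
  have pae : se h (fun _ => (1 : KK p)) = -OO (KK p) h := by
    have : psi p (seR p h (fun _ => 1)) = psi p (-q) := by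
      apply psi_of
      linear_combination p * b2 + seR p h (fun l => HR p (2 * l + 1)) * t3
    rw [psi_seR, map_neg, pq] at this
    simpa using this
  obtain ⟨w, hw'⟩ := exists_omega (p := p)
  have c2' : (χ : KK p) ^ 2 = 1 := by
    have := congrArg (psi p) c2
    simpa using this
  have km := Kmain hpp.out hp h3 w hw' (χ : KK p) k3 c2' pae
  set Xo := soR p h (fun l => 2 * io p (2 * (l : ℤ) + 1) + (4 * OR p l - 3 * HR p l)) with hXo
  set Xe := seR p h (fun l => io p (2 * (l : ℤ) + 2) +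
    (4 * OR p (h + 1 + l) - 3 * HR p (h + 1 + l))) with hXe
  have hK : (p : RR p) ^ 2 * (-Xo - soR p h (fun l => HR p (2 * l)) +
      3 * χ * (seR p h (fun l => HR p (2 * l + 1)) + Xe)) =
      p ^ 2 * (5 * χ * s - 24 * χ * q ^ 2 - 7 * q * soR p h (fun _ => 1) +
        χ * soR p h (fun _ => 1) ^ 2) := by
    apply psi_eq
    rw [hXo, hXe]
    simp only [map_add, map_sub, map_neg, map_mul, map_pow, psi_soR, psi_seR, psi_HR, psi_OR,
      psi_io, map_ofNat, map_intCast, map_one, pq, hs]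
    push_cast
    exact km
  have V0 : VV p 1 0 = 1 := by
    unfold VV vv; norm_num [phi_one]
  have F0 : FF p 1 0 = -3 := by
    have : In (vv ℚ_[p] 1 0) := by unfold vv; norm_num [In_one]
    rw [(ff_of_In this).2, V0]; norm_num
  have AR0 : ∀ r, AR p (p * 1) r = ∏ j ∈ range r,
      (FF p (p * 1) (p * 0 + j) * GR p (p * 1) (p * 0 + j + 1)) := by
    intro r; simp only [mul_zero, zero_add]; rfl
  have low : ∑ r ∈ range h, (-3) ^ r * VV p (p * 1) r * AR p (p * 1) r =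
      -p * soR p h (fun _ => 1) - p ^ 2 * Xo := by
    rw [hXo]; unfold soR
    rw [mul_sum, mul_sum, ← sum_sub_distrib]
    apply sum_congr rfl; intro r hr
    have hr := mem_range.1 hr
    have bl := block_low hp 1 0 (p : RR p) hδ (r := r) (by omega) h3
    have d1 := nd_vv hp 1 0 (j := r) (by omega) (by omega)
    rw [mul_zero, zero_add] at d1
    have d : ¬ (p : ℤ) ∣ 2 * (r : ℤ) + 1 := not_dvd_of_lt (by omega) (by omega)
    have sh := io_shift (p := p) (d := -(2 * (r : ℤ) + 1)) (c := 2) (by rwa [dvd_neg])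
    rw [io_neg d] at sh
    rw [← AR0] at bl
    rw [VV_unit d1,
      show 2 * ((p * 1 : ℕ) : ℤ) - (2 * r + 1) = -(2 * (r : ℤ) + 1) + p * 2 by push_cast; ring]
    push_cast at sh bl ⊢
    generalize io p (-(2 * (r : ℤ) + 1) + p * 2) = u at *
    generalize io p (2 * (r : ℤ) + 1) = v at *
    generalize 4 * OR p r - 3 * HR p r = σ at *
    linear_combination (-3) ^ r * (u * bl + (1 + p * σ) * sh - 2 * v ^ 2 * σ * t3)
  have high : ∑ k ∈ range h, (-3) ^ (h + 1 + k) * VV p (p * 1) (h + 1 + k) *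
      AR p (p * 1) (h + 1 + k) = 3 * (-3) ^ h * (p * seR p h (fun _ => 1) + p ^ 2 * Xe) := by
    rw [hXe]; unfold seR
    rw [mul_sum, mul_sum, ← sum_add_distrib, mul_sum]
    apply sum_congr rfl; intro k hk
    have hk := mem_range.1 hk
    have bl := block_high hp 1 0 (p : RR p) hδ (r := h + 1 + k) (by omega) (by omega)
    have d1 := nd_vv hp 1 0 (j := h + 1 + k) (by omega) (by omega)
    rw [mul_zero, zero_add] at d1
    have d : ¬ (p : ℤ) ∣ 2 * (k : ℤ) + 2 := not_dvd_of_lt (by omega) (by omega)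
    have sh := io_shift (p := p) (d := -(2 * (k : ℤ) + 2)) (c := 1) (by rwa [dvd_neg])
    rw [io_neg d] at sh
    rw [← AR0, F0] at bl
    rw [VV_unit d1,
      show 2 * ((p * 1 : ℕ) : ℤ) - (2 * ((h + 1 + k : ℕ) : ℤ) + 1) =
        -(2 * (k : ℤ) + 2) + p * 1 by push_cast; omega]
    push_cast at sh bl ⊢
    generalize io p (-(2 * (k : ℤ) + 2) + p * 1) = u at *
    generalize io p (2 * (k : ℤ) + 2) = v at *
    generalize 4 * OR p (h + 1 + k) - 3 * HR p (h + 1 + k) = σ at *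
    linear_combination (-3) ^ (h + 1 + k) * (u * bl - 3 * (1 + p * σ) * sh + 3 * v ^ 2 * σ * t3)
  have Vh : VV p (p * 1) h = 1 := by
    have := VV_special (p := p) hp 1 0
    rw [mul_zero, zero_add] at this
    unfold VV at V0 ⊢
    rw [this, V0]
  have fin := alg_base (p : RR p) _ Xo Xe _ _ q χ _ s _ t3 c2 b1 b2 hK
  have e6 : (1 + (p : RR p) * q) ^ 6 = 1 + 6 * p * q + 15 * p ^ 2 * q ^ 2 := by
    linear_combination (20 * q ^ 3 + 15 * p * q ^ 4 + 6 * p ^ 2 * q ^ 5 + p ^ 3 * q ^ 6) * t3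
  rw [e6] at hw
  unfold TR
  have r1 : range (p * 1) = range p := by rw [mul_one]
  rw [r1, kappa_one hp h3, show p * 1 - 1 = 2 * h by omega, congrArg range hp, sum_three, low,
    high, Vh, hB]
  linear_combination io p (-192) ^ (2 * h) * fin + (χ + 5 * χ * p ^ 2 * s) * hw

end Pool.Agent.Work.MP_096b72_nt
end

-- merged part: Pool.Agent.Work.MP_096b72_nt.Final
section
set_option autoImplicit false

namespace Pool.Agent.Work.MP_096b72_nt

open Finset

variable {p : ℕ} [hpp : Fact p.Prime] {h : ℕ}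

lemma In_bernoulli (k : ℕ) (hk : k + 1 < p) : In ((bernoulli k : ℚ) : ℚ_[p]) := by
  induction k using Nat.strong_induction_on with
  | _ k ih =>
    rcases Nat.eq_zero_or_pos k with rfl | hk0
    · simp [In_one]
    have a := sum_bernoulli (k + 1)
    rw [if_neg (by omega), sum_range_succ, Nat.choose_succ_self_right] at a
    have k1 : ((k + 1 : ℕ) : ℚ) ≠ 0 := by positivity
    have b : bernoulli k = (-∑ j ∈ range k, ((k + 1).choose j : ℚ) * bernoulli j) *
        ((k + 1 : ℕ) : ℚ)⁻¹ := by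
      field_simp; linear_combination a
    rw [b]
    push_cast
    have c := (In_phi_sum (fun j => (((k + 1).choose j : ℕ) : ℚ_[p]) * ((bernoulli j : ℚ) : ℚ_[p]))
      k (fun j hj => (In_nat _).mul (ih j hj (by omega)))).1
    have d := In_inv (p := p) (d := (k : ℤ) + 1) (not_dvd_of_lt (by omega) (by omega))
    push_cast at d
    have e := In_zero.sub c
    rw [zero_sub] at e
    exact e.mul d

lemma bern_eval (n : ℕ) (hn : n + 1 < p) (x : ℚ) (hx : In (x : ℚ_[p])) :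
    In (((Polynomial.bernoulli n).eval x : ℚ) : ℚ_[p]) ∧
    psi p (phi (((Polynomial.bernoulli n).eval x : ℚ) : ℚ_[p])) =
      ∑ i ∈ range (n + 1), psi p (phi ((bernoulli (n - i) : ℚ) : ℚ_[p])) * (n.choose i) *
        psi p (phi (x : ℚ_[p])) ^ i := by
  rw [Polynomial.bernoulli_def, Polynomial.eval_finsetSum]
  simp only [Polynomial.eval_monomial]
  push_cast
  have ib : ∀ i, In ((bernoulli (n - i) : ℚ) : ℚ_[p]) := fun i => In_bernoulli _ (by omega)
  have c := In_phi_sum (fun i => ((bernoulli (n - i) : ℚ) : ℚ_[p]) * ((n.choose i : ℕ) : ℚ_[p]) *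
    (x : ℚ_[p]) ^ i) (n + 1) (fun i _ => ((ib i).mul (In_nat _)).mul (hx.pow i))
  refine ⟨c.1, ?_⟩
  rw [c.2, map_sum]
  apply sum_congr rfl; intro i _
  rw [phi_mul ((ib i).mul (In_nat _)) (hx.pow i), phi_mul (ib i) (In_nat _), phi_pow hx, phi_nat]
  simp

lemma sum_three_dvd {M : Type*} [AddCommMonoid M] (f : ℕ → M) (N : ℕ) :
    ∑ j ∈ range N, (if 3 ∣ j then f j else 0) = ∑ k ∈ range ((N + 2) / 3), f (3 * k) := by
  induction N with
  | zero => simp
  | succ N ih =>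
    rw [sum_range_succ, ih]
    by_cases h : 3 ∣ N
    · rw [if_pos h, show (N + 1 + 2) / 3 = (N + 2) / 3 + 1 by omega, sum_range_succ,
        show 3 * ((N + 2) / 3) = N by omega]
    · rw [if_neg h, show (N + 1 + 2) / 3 = (N + 2) / 3 by omega, add_zero]

lemma s0_eq (hp : p = 2 * h + 1) (h3 : 3 < p) :
    9 * s0 (KK p) h = ∑ k ∈ range ((p + 2) / 3), (k : KK p) ^ (p - 3) := by
  have a := sum_three_dvd (fun j => (((j : ℕ) : KK p)⁻¹) ^ 2) p
  rw [congrArg range hp, sum_range_succ'] at a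
  simp only [Nat.cast_zero, inv_zero, ne_eq, OfNat.ofNat_ne_zero, not_false_eq_true, zero_pow,
    ite_self, add_zero] at a
  unfold s0
  push_cast at a
  rw [a, mul_sum]
  apply sum_congr rfl; intro k hk
  have hk := mem_range.1 hk
  have h3' := three_ne (K := KK p) h3
  rcases Nat.eq_zero_or_pos k with rfl | hk0
  · have : p - 3 ≠ 0 := by omega
    simp [this]
  have k0 : (k : KK p) ≠ 0 := cast_ne hk0 (by omega)
  have f : (k : KK p) ^ p = k := by rw [← frobenius_def, map_natCast]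
  have g : (k : KK p) ^ (p - 3) * k ^ 3 = k := by
    rw [← pow_add, show p - 3 + 3 = p by omega, f]
  field_simp
  apply mul_left_cancel₀ k0
  linear_combination -9 * g

lemma bern_val (hp : p = 2 * h + 1) (h3 : 3 < p) {χ : ℤ}
    (hχ : (p % 3 = 1 ∧ χ = 1) ∨ (p % 3 = 2 ∧ χ = -1)) :
    In (((Polynomial.bernoulli (p - 2)).eval (1 / 3 : ℚ) : ℚ) : ℚ_[p]) ∧
    psi p (phi (((Polynomial.bernoulli (p - 2)).eval (1 / 3 : ℚ) : ℚ) : ℚ_[p])) =
      18 * χ * s0 (KK p) h := by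
  have d3 : ¬ (p : ℤ) ∣ 3 := not_dvd_of_lt (by omega) (by omega)
  have h3' := three_ne (K := KK p) h3
  have i3 : ∀ c : ℤ, In ((((c : ℚ) / 3 : ℚ)) : ℚ_[p]) ∧
      psi p (phi ((((c : ℚ) / 3 : ℚ)) : ℚ_[p])) = c / 3 := by
    intro c
    have a := In_div (p := p) c d3
    have b := phi_div (p := p) c d3
    push_cast at a b ⊢
    rw [b]
    refine ⟨a, ?_⟩
    rw [map_mul, psi_io, map_intCast, div_eq_mul_inv]; norm_num
  set n := (p + 2) / 3 with hn
  have e1 : (Polynomial.bernoulli (p - 2)).eval (n : ℚ) =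
      (((p - 2) * ∑ k ∈ range n, k ^ (p - 3) : ℕ) : ℚ) := by
    have a := Polynomial.bernoulli_succ_eval n (p - 3)
    rw [show (p - 3).succ = p - 2 by omega,
      bernoulli_eq_zero_of_odd (n := p - 2) ⟨h - 1, by omega⟩ (by omega)] at a
    rw [a]
    push_cast
    rw [show p - 2 = p - 3 + 1 by omega]; push_cast; ring
  have e2 : psi p (phi (((Polynomial.bernoulli (p - 2)).eval (n : ℚ) : ℚ) : ℚ_[p])) =
      -2 * (9 * s0 (KK p) h) := by
    rw [e1, Rat.cast_natCast, phi_nat, map_natCast, s0_eq hp h3]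
    push_cast
    rw [Nat.cast_sub (by omega), CharP.cast_eq_zero]; push_cast; ring
  have inn : In (((n : ℕ) : ℚ) : ℚ_[p]) := by rw [Rat.cast_natCast]; exact In_nat n
  have pn : psi p (phi (((n : ℕ) : ℚ) : ℚ_[p])) = n := by
    rw [Rat.cast_natCast, phi_nat, map_natCast]
  have en := (bern_eval (p - 2) (by omega) n inn).2
  rw [e2, pn] at en
  have j1 := i3 1
  rw [Int.cast_one] at j1
  refine ⟨(bern_eval (p - 2) (by omega) _ j1.1).1, ?_⟩
  rcases hχ with ⟨h1, rfl⟩ | ⟨h1, rfl⟩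
  · have j2 := i3 2
    have r := Polynomial.bernoulli_eval_one_sub (p - 2) (((2 : ℤ) : ℚ) / 3)
    have odd : (-1 : ℚ) ^ (p - 2) = -1 := Odd.neg_one_pow ⟨h - 1, by omega⟩
    rw [show (1 : ℚ) - ((2 : ℤ) : ℚ) / 3 = 1 / 3 by norm_num, odd] at r
    have b := bern_eval (p - 2) (by omega) _ j2.1
    have nn : (n : KK p) = ((2 : ℤ) : KK p) / 3 := by
      have : ((3 * n : ℕ) : KK p) = ((p + 2 : ℕ) : KK p) := by congr 1; omega
      push_cast at this ⊢
      rw [CharP.cast_eq_zero (KK p) p] at this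
      field_simp; linear_combination this
    rw [j2.2, ← nn, ← en] at b
    have m1 : In ((-1 : ℤ) : ℚ_[p]) := In_int _
    have := phi_mul m1 b.1
    rw [r]
    generalize Polynomial.eval (((2 : ℤ) : ℚ) / 3) (Polynomial.bernoulli (p - 2)) = B2 at *
    push_cast at this ⊢
    rw [this, map_mul, b.2]
    have : phi (-1 : ℚ_[p]) = -1 := by exact_mod_cast phi_int (p := p) (-1)
    rw [this]; simp; ring
  · have b := bern_eval (p - 2) (by omega) _ j1.1
    have nn : (n : KK p) = ((1 : ℤ) : KK p) / 3 := by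
      have : ((3 * n : ℕ) : KK p) = ((p + 1 : ℕ) : KK p) := by congr 1; omega
      push_cast at this ⊢
      rw [CharP.cast_eq_zero (KK p) p] at this
      field_simp; linear_combination this
    rw [j1.2, ← nn, ← en] at b
    rw [b.2]; push_cast; ring

lemma TR_pow (hp : p = 2 * h + 1) (h3 : 3 < p) {χ : ℤ}
    (hχ : (p % 3 = 1 ∧ χ = 1) ∨ (p % 3 = 2 ∧ χ = -1)) (b : ℕ) :
    TR p (p ^ (b + 1)) = χ ^ b * TR p (p * 1) := by
  induction b with
  | zero => simp
  | succ b ih =>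
    have e1 : p ^ (b + 1) = p * p ^ b := by ring
    have e2 : p ^ (b + 1 + 1) = p * (p * p ^ b) := by ring
    rw [e2, TR_rec hp h3 hχ (p ^ b) (pow_pos (by omega) b) (fun l hl => by
      rw [← e1] at hl ⊢; exact In_vv _ l h3 hl), ← e1, ih]
    ring

omit hpp in
lemma jacobi_chi (hpp : p.Prime) (h3 : 3 < p) :
    (p % 3 = 1 ∧ jacobiSym p 3 = 1) ∨ (p % 3 = 2 ∧ jacobiSym p 3 = -1) := by
  have h0 : p % 3 ≠ 0 := by
    intro h0
    have := (Nat.prime_dvd_prime_iff_eq Nat.prime_three hpp).1 (Nat.dvd_of_mod_eq_zero h0)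
    omega
  rw [jacobiSym.mod_left]
  have : p % 3 = 1 ∨ p % 3 = 2 := by omega
  rcases this with h1 | h1
  · left
    refine ⟨h1, ?_⟩
    rw [show (p : ℤ) % (3 : ℕ) = 1 by omega]; norm_num
  · right
    refine ⟨h1, ?_⟩
    rw [show (p : ℤ) % (3 : ℕ) = 2 by omega]; norm_num

theorem main (p : ℕ) (hpp : p.Prime) (h3 : 3 < p) (a : ℕ) (ha : 1 ≤ a) (T R : ℚ)
    (hT : T = (1 / (p : ℚ) ^ a) *
          ∑ k ∈ Finset.range (p ^ a),
            (5 * (k : ℚ) + 1) / (-192 : ℚ) ^ k *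
              (((Nat.choose (2 * k) k : ℕ) : ℚ) ^ 2 * ((Nat.choose (3 * k) k : ℕ) : ℚ)))
    (hR : R = ((jacobiSym ((p : ℤ) ^ a) 3 : ℤ) : ℚ) +
          ((jacobiSym ((p : ℤ) ^ (a - 1)) 3 : ℤ) : ℚ) * (5 / 18 : ℚ) * (p : ℚ) ^ 2 *
            (Polynomial.bernoulli (p - 2)).eval (1 / 3 : ℚ)) :
    T - R = 0 ∨ 3 ≤ padicValRat p (T - R) := by
  have := Fact.mk hpp
  obtain ⟨h, hp⟩ : ∃ h, p = 2 * h + 1 := hpp.odd_of_ne_two (by omega)
  obtain ⟨b, rfl⟩ : ∃ b, a = b + 1 := ⟨a - 1, by omega⟩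
  have hχ := jacobi_chi hpp h3
  rw [jacobiSym.pow_left, jacobiSym.pow_left, Nat.add_sub_cancel] at hR
  generalize jacobiSym p 3 = χ at hχ hR
  obtain ⟨iB, pB⟩ := bern_val hp h3 hχ
  generalize (Polynomial.bernoulli (p - 2)).eval (1 / 3 : ℚ) = B at iB pB hR
  obtain ⟨iT, pT⟩ := phi_T (p := p) (b + 1) h3
  have eT : (T : ℚ_[p]) = (1 / ((p ^ (b + 1) : ℕ) : ℚ_[p])) *
      ∑ k ∈ range (p ^ (b + 1)), (5 * (k : ℚ_[p]) + 1) * tt ℚ_[p] k := by
    rw [hT]; push_cast
    congr 1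
    apply sum_congr rfl; intro k _
    unfold tt; ring
  rw [← eT] at iT pT
  have d18 : ¬ (p : ℤ) ∣ 18 := by
    intro h
    have h' : p ∣ 2 * 3 ^ 2 := by exact_mod_cast h
    rcases (Nat.Prime.dvd_mul hpp).1 h' with h | h
    · have := Nat.le_of_dvd (by omega) h; omega
    · have := Nat.le_of_dvd (by omega) (hpp.dvd_of_dvd_pow h); omega
  have c2 := chi_sq hχ
  have hs : psi p (χ * io p 18 * phi (B : ℚ_[p])) = s0 (KK p) h := by
    have c2' := congrArg (psi p) c2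
    have i18 := congrArg (psi p) (io_mul d18)
    simp only [map_mul, map_pow, map_one, map_intCast] at c2' i18
    rw [map_mul, map_mul, pB, map_intCast]
    push_cast at i18
    linear_combination (s0 (KK p) h * (χ : KK p) ^ 2) * i18 + s0 (KK p) h * c2'
  have tb := TR_base hp h3 hχ _ hs
  rw [TR_pow hp h3 hχ, tb] at pT
  have eR : (R : ℚ_[p]) = ((χ ^ (b + 1) : ℤ) : ℚ_[p]) +
      ((χ ^ b * 5 * p ^ 2 : ℤ) : ℚ_[p]) / ((18 : ℤ) : ℚ_[p]) * (B : ℚ_[p]) := by
    rw [hR]; push_cast; ring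
  have i1 := (In_div (p := p) (χ ^ b * 5 * p ^ 2) d18).mul iB
  have iR : In (R : ℚ_[p]) := by rw [eR]; exact (In_int _).add i1
  have pR : phi (R : ℚ_[p]) = phi (T : ℚ_[p]) := by
    rw [pT, eR, phi_add (In_int _) i1, phi_mul (In_div _ d18) iB, phi_div _ d18, phi_int]
    push_cast
    linear_combination -(5 * χ ^ b * p ^ 2 * io p 18 * phi (B : ℚ_[p])) * c2
  have fin := phi_eq iT iR pR.symm
  by_cases h0 : T - R = 0
  · exact Or.inl h0
  right
  rw [← Rat.cast_sub, Padic.eq_padicNorm, padicNorm.eq_zpow_of_nonzero h0] at fin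
  have hp1 : (1 : ℝ) < p := by exact_mod_cast hpp.one_lt
  push_cast at fin
  have := (zpow_le_zpow_iff_right₀ hp1).1 fin
  omega

end Pool.Agent.Work.MP_096b72_nt
end
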